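import Mathlib
import Pool.Graph.R_pool_sql_team_seeded_2aa45f1a.Q287.BA.Part
import Pool.Graph.R_pool_sql_team_seeded_2aa45f1a.Q324.SC.Comp
import Pool.Graph.R_pool_sql_team_seeded_2aa45f1a.Q324.SC.IntOps

/-!
# Randomised candidates with an arbitrarily small probability of success

`F ((s, i), x, N)` is what a randomised algorithm has output for the input `x` and the index `N` at
the stage `s`, when `i < 2 ^ s` is the number formed by the first `s` random bits. For each index
`N`, with probability at least `1 / k` the outputs are right for all the inputs `x` with `adm x N`.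
Then the question is decided by an algorithm.
-/

set_option autoImplicit false

namespace Pool.Agent.H34.RO

open Filter
open Pool.Agent.Q324.SC (cnt cnt_eq cnt_comp)
open Pool.Agent.Q287.BA (all_comp)
open Pool.Agent.Q287.BA.Partial (obeq_comp some_comp un1 un2)

/-- the number of `i < a n` with a property which depends on `i % a` only -/
lemma card_mod (a n : ℕ) (ha : 0 < a) (p : ℕ → Prop) [DecidablePred p] :
    ((Finset.range (a * n)).filter fun i => p (i % a)).card
      = n * ((Finset.range a).filter p).card := by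
  rw [Nat.mul_comm n, ← Finset.card_range n, ← Finset.card_product, Finset.card_range]
  refine Finset.card_nbij' (fun i => (i % a, i / a)) (fun q => q.1 + a * q.2) ?_ ?_ ?_ ?_
  · intro i hi
    rw [Finset.coe_filter, Set.mem_ofPred_eq, Finset.mem_range] at hi
    rw [Finset.coe_product, Set.mem_prod, Finset.mem_coe, Finset.mem_coe, Finset.mem_filter,
      Finset.mem_range, Finset.mem_range]
    exact ⟨⟨Nat.mod_lt _ ha, hi.2⟩, Nat.div_lt_of_lt_mul hi.1⟩
  · rintro ⟨u, v⟩ hq
    rw [Finset.coe_product, Set.mem_prod, Finset.mem_coe, Finset.mem_coe, Finset.mem_filter,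
      Finset.mem_range, Finset.mem_range] at hq
    obtain ⟨⟨h1, h2⟩, h3⟩ := hq
    change u < a at h1
    change p u at h2
    change v < n at h3
    rw [Finset.coe_filter, Set.mem_ofPred_eq, Finset.mem_range]
    refine ⟨?_, ?_⟩
    · calc u + a * v < a + a * v := by omega
        _ = a * (v + 1) := by ring
        _ ≤ a * n := Nat.mul_le_mul_left _ h3
    · change p ((u + a * v) % a)
      rwa [Nat.add_mul_mod_self_left, Nat.mod_eq_of_lt h1]
  · intro i _
    exact Nat.mod_add_div i a
  · rintro ⟨u, v⟩ hq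
    rw [Finset.coe_product, Set.mem_prod, Finset.mem_coe, Finset.mem_coe, Finset.mem_filter,
      Finset.mem_range, Finset.mem_range] at hq
    obtain ⟨⟨h1, h2⟩, h3⟩ := hq
    change u < a at h1
    refine Prod.ext ?_ ?_
    · change (u + a * v) % a = u
      rw [Nat.add_mul_mod_self_left, Nat.mod_eq_of_lt h1]
    · change (u + a * v) / a = v
      rw [Nat.add_mul_div_left _ _ ha, Nat.div_eq_of_lt h1, Nat.zero_add]

lemma scale_eq {s s' : ℕ} (h : s ≤ s') (p : ℕ → Prop) [DecidablePred p] :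
    ((Finset.range (2 ^ s')).filter fun i => p (i % 2 ^ s)).card
      = 2 ^ (s' - s) * ((Finset.range (2 ^ s)).filter p).card := by
  have h1 : 2 ^ s' = 2 ^ s * 2 ^ (s' - s) := by rw [← pow_add]; congr 1; omega
  rw [h1]
  exact card_mod _ _ (by positivity) p

lemma scale_le {s s' : ℕ} (h : s ≤ s') (p q : ℕ → Prop) [DecidablePred p] [DecidablePred q]
    (hpq : ∀ i, p (i % 2 ^ s) → q i) :
    2 ^ (s' - s) * ((Finset.range (2 ^ s)).filter p).card
      ≤ ((Finset.range (2 ^ s')).filter q).card := by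
  rw [← scale_eq h p]
  refine Finset.card_le_card fun i hi => ?_
  rw [Finset.mem_filter] at hi ⊢
  exact ⟨hi.1, hpq i hi.2⟩

variable {X : Type} [Primcodable X]

section
variable (F : (ℕ × ℕ) × X × ℕ → Option Bool) (E : List (X × Bool))

/-- at the stage `s` there is an output for `E` -/
def hz (s N i : ℕ) : Bool := E.all fun y => (F ((s, i), y.1, N)).isSome

/-- at the stage `s` the output is right on `E` -/
def rz (s N i : ℕ) : Bool := E.all fun y => decide (F ((s, i), y.1, N) = some y.2)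

/-- output for `x` and `E` -/
def hx (x : X) (s N i : ℕ) : Bool := (F ((s, i), x, N)).isSome && hz F E s N i

/-- output for `x`, different from `b`, and right output for `E` -/
def wx (b : Bool) (x : X) (s N i : ℕ) : Bool :=
  hx F E x s N i && (rz F E s N i && !(decide (F ((s, i), x, N) = some b)))

end

section
variable {F : (ℕ × ℕ) × X × ℕ → Option Bool} {E : List (X × Bool)}

lemma hz_iff {s N i : ℕ} : hz F E s N i = true ↔ ∀ y ∈ E, ∃ b, F ((s, i), y.1, N) = some b := by
  unfold hz
  simp only [List.all_eq_true, Option.isSome_iff_exists]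

lemma rz_iff {s N i : ℕ} : rz F E s N i = true ↔ ∀ y ∈ E, F ((s, i), y.1, N) = some y.2 := by
  unfold rz
  simp only [List.all_eq_true, decide_eq_true_eq]

lemma hx_iff {x : X} {s N i : ℕ} : hx F E x s N i = true ↔
    (∃ b, F ((s, i), x, N) = some b) ∧ ∀ y ∈ E, ∃ b, F ((s, i), y.1, N) = some b := by
  unfold hx
  rw [Bool.and_eq_true, hz_iff, Option.isSome_iff_exists]

lemma wx_iff {b : Bool} {x : X} {s N i : ℕ} : wx F E b x s N i = true ↔
    (∃ a, F ((s, i), x, N) = some a ∧ a ≠ b) ∧ ∀ y ∈ E, F ((s, i), y.1, N) = some y.2 := by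
  unfold wx
  simp only [Bool.and_eq_true, Bool.not_eq_true', decide_eq_false_iff_not, hx_iff, rz_iff]
  constructor
  · rintro ⟨⟨⟨a, ha⟩, _⟩, h2, h3⟩
    refine ⟨⟨a, ha, ?_⟩, h2⟩
    rintro rfl
    exact h3 ha
  · rintro ⟨⟨a, ha, hab⟩, h2⟩
    refine ⟨⟨⟨a, ha⟩, fun y hy => ⟨_, h2 y hy⟩⟩, h2, ?_⟩
    rw [ha]
    intro h3
    exact hab (Option.some.inj h3)

lemma f1 (hF : Computable F) : Computable (fun z : (X × ℕ) × ℕ =>
    F ((z.1.2.unpair.2, z.2), z.1.1, z.1.2.unpair.1)) :=
  hF.comp (((un2.comp Computable.fst).pair Computable.snd).pair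
    ((Computable.fst.comp Computable.fst).pair (un1.comp Computable.fst)))

lemma f2 (hF : Computable F) (y : X) : Computable (fun z : (X × ℕ) × ℕ =>
    F ((z.1.2.unpair.2, z.2), y, z.1.2.unpair.1)) :=
  hF.comp (((un2.comp Computable.fst).pair Computable.snd).pair
    ((Computable.const y).pair (un1.comp Computable.fst)))

lemma hz_comp (hF : Computable F) (E : List (X × Bool)) : Computable (fun z : (X × ℕ) × ℕ =>
    hz F E z.1.2.unpair.2 z.1.2.unpair.1 z.2) :=
  all_comp (fun y : X × Bool => some_comp (f2 hF y.1)) _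

lemma rz_comp (hF : Computable F) (E : List (X × Bool)) : Computable (fun z : (X × ℕ) × ℕ =>
    rz F E z.1.2.unpair.2 z.1.2.unpair.1 z.2) :=
  all_comp (fun y : X × Bool => obeq_comp (f2 hF y.1) (some y.2)) _

lemma hx_comp (hF : Computable F) (E : List (X × Bool)) : Computable (fun z : (X × ℕ) × ℕ =>
    hx F E z.1.1 z.1.2.unpair.2 z.1.2.unpair.1 z.2) :=
  Primrec.and.to_comp.comp (some_comp (f1 hF)) (hz_comp hF E)

lemma wx_comp (hF : Computable F) (E : List (X × Bool)) (b : Bool) :
    Computable (fun z : (X × ℕ) × ℕ => wx F E b z.1.1 z.1.2.unpair.2 z.1.2.unpair.1 z.2) :=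
  Primrec.and.to_comp.comp (hx_comp hF E) (Primrec.and.to_comp.comp (rz_comp hF E)
    (Primrec.not.to_comp.comp (obeq_comp (f1 hF) _)))

lemma pow_comp : Computable (fun z : X × ℕ => 2 ^ z.2.unpair.2) := by
  have h : Primrec (fun n : ℕ => 2 ^ n) :=
    Pool.Agent.Q324.SC.ppow (Primrec.const 2) Primrec.id
  exact h.to_comp.comp un2

lemma ch_comp (hF : Computable F) (E : List (X × Bool)) : Computable (fun z : X × ℕ =>
    cnt (hx F E z.1 z.2.unpair.2 z.2.unpair.1) (2 ^ z.2.unpair.2)) :=
  cnt_comp (f := fun (z : X × ℕ) i => hx F E z.1 z.2.unpair.2 z.2.unpair.1 i) (hx_comp hF E)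
    pow_comp

lemma cw_comp (hF : Computable F) (E : List (X × Bool)) (b : Bool) :
    Computable (fun z : X × ℕ =>
      cnt (wx F E b z.1 z.2.unpair.2 z.2.unpair.1) (2 ^ z.2.unpair.2)) :=
  cnt_comp (f := fun (z : X × ℕ) i => wx F E b z.1 z.2.unpair.2 z.2.unpair.1 i)
    (wx_comp hF E b) pow_comp

end

lemma cnt_le_of {p q : ℕ → Bool} {n : ℕ} (h : ∀ i < n, p i = true → q i = true) :
    cnt p n ≤ cnt q n := by
  rw [cnt_eq, cnt_eq]
  refine Finset.card_le_card fun i hi => ?_
  rw [Finset.mem_filter, Finset.mem_range] at hi ⊢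
  exact ⟨hi.1, h i hi.1 hi.2⟩

/-- **Randomised candidates which need not halt, with a small probability of success.** -/
theorem frac {P T : X → Prop} {k : ℕ} {adm : X × ℕ → Bool} {F : (ℕ × ℕ) × X × ℕ → Option Bool}
    (hF : Computable F) (hadm : Computable adm)
    (hmono : ∀ s s' i x N b, s ≤ s' → F ((s, i % 2 ^ s), x, N) = some b →
      F ((s', i), x, N) = some b)
    (hl : ∀ x, P x → ∀ᶠ N in atTop, adm (x, N) = true)
    (h : ∀ N, ∀ Z : List X, (∀ x ∈ Z, P x ∧ adm (x, N) = true) →
      ∃ l, ∃ S : Finset ℕ, S ⊆ Finset.range (2 ^ l) ∧ 2 ^ l ≤ k * S.card ∧ ∀ i ∈ S, ∀ x ∈ Z,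
        ∃ s, l ≤ s ∧ ∀ j, j % 2 ^ l = i → ∃ b,
          F ((s, j), x, N) = some b ∧ (b = true ↔ T x)) :
    ∃ D : X →. Bool, Partrec D ∧ ∀ x, P x → ∃ b, D x = Part.some b ∧ (b = true ↔ T x) := by
  classical
  obtain ⟨G, hG⟩ : ∃ G : List (X × Bool) → Prop,
    G = fun E => ∀ y ∈ E, P y.1 ∧ y.2 = decide (T y.1) := ⟨_, rfl⟩
  -- many seeds are right for a finite list
  have hfin : ∀ N, ∀ Z : List (X × Bool), G Z → (∀ y ∈ Z, adm (y.1, N) = true) → ∀ s0,
      ∃ s, s0 ≤ s ∧ 2 ^ s ≤ k * cnt (rz F Z s N) (2 ^ s) := by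
    intro N Z hZ hZ2 s0
    rw [hG] at hZ
    obtain ⟨l, S, hS, hS2, hS3⟩ := h N (Z.map Prod.fst) (by
      intro x hx
      obtain ⟨y, hy, rfl⟩ := List.mem_map.1 hx
      exact ⟨(hZ y hy).1, hZ2 y hy⟩)
    have h1 : ∀ i ∈ S, ∃ s, ∀ s', s ≤ s' → l ≤ s' → ∀ j, j % 2 ^ l = i →
        rz F Z s' N j = true := by
      intro i hi
      have : ∀ W : List (X × Bool), (∀ y ∈ W, y ∈ Z) → ∃ s, ∀ s', s ≤ s' → l ≤ s' →
          ∀ j, j % 2 ^ l = i → rz F W s' N j = true := by
        intro W
        induction W with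
        | nil =>
          intro _
          refine ⟨0, fun s' _ _ j _ => ?_⟩
          rw [rz_iff]
          intro y hy
          simp at hy
        | cons w W ih =>
          intro hW
          obtain ⟨s1, hs1⟩ := ih fun y hy => hW y (List.mem_cons_of_mem _ hy)
          have hwZ := hW w (by simp)
          obtain ⟨s2, hs2, hs3⟩ := hS3 i hi w.1 (List.mem_map_of_mem hwZ)
          refine ⟨max s1 s2, fun s' e1 e2 j hj => ?_⟩
          rw [rz_iff]
          intro y hy
          rcases List.mem_cons.1 hy with rfl | hy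
          · have e3 : (j % 2 ^ s2) % 2 ^ l = i := by
              rw [Nat.mod_mod_of_dvd _ (pow_dvd_pow 2 hs2), hj]
            obtain ⟨b, hb, hb2⟩ := hs3 _ e3
            have e4 : b = y.2 := by
              rw [(hZ y hwZ).2, Bool.eq_iff_iff, decide_eq_true_eq]
              exact hb2
            rw [← e4]
            exact hmono s2 s' j y.1 N b ((le_max_right _ _).trans e1) hb
          · exact (rz_iff.1 (hs1 s' ((le_max_left _ _).trans e1) e2 j hj)) y hy
      exact this Z fun y hy => hy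
    choose! st hst using h1
    refine ⟨max (max s0 l) (S.sup st), (le_max_left s0 l).trans (le_max_left _ _), ?_⟩
    obtain ⟨s, hs⟩ : ∃ s, s = max (max s0 l) (S.sup st) := ⟨_, rfl⟩
    rw [← hs]
    have hls : l ≤ s := by rw [hs]; exact (le_max_right s0 l).trans (le_max_left _ _)
    have h2 := scale_le (s := l) (s' := s) hls (p := fun i => i ∈ S)
      (q := fun i => rz F Z s N i = true) (fun i hi => by
        refine hst _ hi s ?_ hls i rfl
        rw [hs]
        exact (Finset.le_sup (f := st) hi).trans (le_max_right _ _))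
    rw [← cnt_eq] at h2
    have h3 : (Finset.range (2 ^ l)).filter (fun i => i ∈ S) = S := by
      ext i
      rw [Finset.mem_filter]
      exact ⟨fun h => h.2, fun h => ⟨hS h, h⟩⟩
    rw [h3] at h2
    calc 2 ^ s = 2 ^ (s - l) * 2 ^ l := by rw [← pow_add]; congr 1; omega
      _ ≤ 2 ^ (s - l) * (k * S.card) := Nat.mul_le_mul_left _ hS2
      _ = k * (2 ^ (s - l) * S.card) := by ring
      _ ≤ k * cnt (rz F Z s N) (2 ^ s) := Nat.mul_le_mul_left _ h2
  have hk : 1 ≤ k := by
    obtain ⟨l, S, _, hS2, _⟩ := h 0 [] (by simp)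
    rcases Nat.eq_zero_or_pos k with h0 | h0
    · rw [h0, Nat.zero_mul] at hS2
      have : 0 < 2 ^ l := by positivity
      omega
    · exact h0
  -- monotonicity
  have mhz : ∀ E s s' N i, s ≤ s' → hz F E s N (i % 2 ^ s) = true → hz F E s' N i = true := by
    intro E s s' N i hs h1
    rw [hz_iff] at h1 ⊢
    intro y hy
    obtain ⟨b, hb⟩ := h1 y hy
    exact ⟨b, hmono s s' i y.1 N b hs hb⟩
  have mwx : ∀ E b x s s' N i, s ≤ s' → wx F E b x s N (i % 2 ^ s) = true →
      wx F E b x s' N i = true := by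
    intro E b x s s' N i hs h1
    rw [wx_iff] at h1 ⊢
    obtain ⟨⟨a, ha, hab⟩, h2⟩ := h1
    exact ⟨⟨a, hmono s s' i x N a hs ha, hab⟩, fun y hy => hmono s s' i y.1 N y.2 hs (h2 y hy)⟩
  have mrz : ∀ E s s' N i, s ≤ s' → rz F E s N (i % 2 ^ s) = true → rz F E s' N i = true := by
    intro E s s' N i hs h1
    rw [rz_iff] at h1 ⊢
    exact fun y hy => hmono s s' i y.1 N y.2 hs (h1 y hy)
  -- the probability to halt
  obtain ⟨m, hm⟩ : ∃ m, m = 4 * k := ⟨_, rfl⟩
  obtain ⟨R, hR⟩ : ∃ R : ℕ → Prop, R = fun c => ∃ E, G E ∧ ∀ᶠ N in atTop, ∀ s,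
    m * cnt (hz F E s N) (2 ^ s) ≤ c * 2 ^ s := ⟨_, rfl⟩
  have cle : ∀ (p : ℕ → Bool) n, cnt p n ≤ n := by
    intro p n
    rw [cnt_eq]
    exact (Finset.card_filter_le _ _).trans (Finset.card_range n).le
  have hGnil : G [] := by
    rw [hG]
    intro y hy
    simp at hy
  have hRm : ∃ c, R c := by
    rw [hR]
    exact ⟨m, [], hGnil, Eventually.of_forall fun N s => Nat.mul_le_mul_left _ (cle _ _)⟩
  obtain ⟨c, hc⟩ : ∃ c, c = Nat.find hRm := ⟨_, rfl⟩
  have hRc : R c := hc ▸ Nat.find_spec hRm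
  have hmin : ∀ d < c, ¬ R d := fun d hd => Nat.find_min hRm (hc ▸ hd)
  have hadE : ∀ E, G E → ∀ᶠ N in atTop, ∀ y ∈ E, adm (y.1, N) = true := by
    intro E
    rw [hG]
    induction E with
    | nil =>
      intro _
      exact Eventually.of_forall fun N y hy => by simp at hy
    | cons z Z ih =>
      intro hZ
      have e1 := hl z.1 (hZ z (by simp)).1
      have e2 := ih fun y hy => hZ y (by simp [hy])
      filter_upwards [e1, e2] with N h1 h2 y hy
      rcases List.mem_cons.1 hy with rfl | hy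
      · exact h1
      · exact h2 y hy
  have rle : ∀ E s N i, rz F E s N i = true → hz F E s N i = true := by
    intro E s N i h1
    rw [rz_iff] at h1
    rw [hz_iff]
    exact fun y hy => ⟨_, h1 y hy⟩
  have hc1 : 1 ≤ c := by
    by_contra hc0
    have hc0' : c = 0 := by omega
    rw [hR, hc0'] at hRc
    obtain ⟨E, hE, hE2⟩ := hRc
    obtain ⟨N, n1, n2⟩ := (hE2.and (hadE E hE)).exists
    obtain ⟨s, _, hs⟩ := hfin N E hE n2 0
    have h1 := n1 s
    have h2 : cnt (rz F E s N) (2 ^ s) ≤ cnt (hz F E s N) (2 ^ s) :=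
      cnt_le_of fun i _ hi => rle E s N i hi
    have h3 : 0 < 2 ^ s := by positivity
    have h4 : k * cnt (rz F E s N) (2 ^ s) ≤ m * cnt (hz F E s N) (2 ^ s) :=
      Nat.mul_le_mul (by omega) h2
    omega
  have hfreq : ∀ E, G E → ∃ᶠ N in atTop, ∃ s, (c - 1) * 2 ^ s < m * cnt (hz F E s N) (2 ^ s) := by
    intro E hE hcon
    refine hmin (c - 1) (by omega) ?_
    rw [hR]
    refine ⟨E, hE, ?_⟩
    filter_upwards [hcon] with N hN s
    push Not at hN
    exact hN s
  rw [hR] at hRc
  obtain ⟨E0, hE0, hev⟩ := hRc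
  obtain ⟨N0, hN0⟩ := eventually_atTop.1 hev
  have hzsub : ∀ E E' s N i, (∀ y ∈ E, y ∈ E') → hz F E' s N i = true → hz F E s N i = true := by
    intro E E' s N i hE h1
    rw [hz_iff] at h1 ⊢
    exact fun y hy => h1 y (hE y hy)
  -- the references
  obtain ⟨Q, hQ⟩ : ∃ Q : List (X × Bool) → X → Prop, Q = fun E x => ∃ N, N0 ≤ N ∧
    adm (x, N) = true ∧ (∀ y ∈ E, adm (y.1, N) = true) ∧
    (∃ s, (c - 1) * 2 ^ s < m * cnt (hz F ((x, decide (T x)) :: E) s N) (2 ^ s)) ∧
    ∀ s, 2 * k * cnt (wx F E (decide (T x)) x s N) (2 ^ s) ≤ 2 ^ s := ⟨_, rfl⟩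
  have hcl : ∃ E, G E ∧ (∀ y ∈ E0, y ∈ E) ∧ ∀ x, P x → Q E x := by
    by_contra hne
    push Not at hne
    have h1 : ∀ j, ∃ E, G E ∧ (∀ y ∈ E0, y ∈ E) ∧ ∀ N, N0 ≤ N → (∀ y ∈ E, adm (y.1, N) = true) →
        (∃ s, (c - 1) * 2 ^ s < m * cnt (hz F E s N) (2 ^ s)) →
        ∀ s, 2 * k * cnt (rz F E s N) (2 ^ s) + j * 2 ^ s ≤ 2 * k * 2 ^ s := by
      intro j
      induction j with
      | zero =>
        refine ⟨E0, hE0, fun y hy => hy, fun N _ _ _ s => ?_⟩
        rw [Nat.zero_mul, Nat.add_zero]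
        exact Nat.mul_le_mul_left _ (cle _ _)
      | succ j ih =>
        obtain ⟨E, g1, g2, g3⟩ := ih
        obtain ⟨x, g4, g5⟩ := hne E g1 g2
        obtain ⟨E', hE'⟩ : ∃ E', E' = (x, decide (T x)) :: E := ⟨_, rfl⟩
        have hsub : ∀ y ∈ E, y ∈ E' := fun y hy => by
          rw [hE']
          exact List.mem_cons_of_mem _ hy
        have hxE' : (x, decide (T x)) ∈ E' := by rw [hE']; simp
        refine ⟨E', ?_, fun y hy => hsub y (g2 y hy), ?_⟩
        · rw [hG] at g1 ⊢
          intro y hy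
          rw [hE'] at hy
          rcases List.mem_cons.1 hy with rfl | hy
          · exact ⟨g4, rfl⟩
          · exact g1 y hy
        · intro N e1 e2 e3
          have e4 : ∃ s, (c - 1) * 2 ^ s < m * cnt (hz F E s N) (2 ^ s) := by
            obtain ⟨s, hs⟩ := e3
            refine ⟨s, hs.trans_le (Nat.mul_le_mul_left _ ?_)⟩
            exact cnt_le_of fun i _ hi => hzsub E E' s N i hsub hi
          have e5 := g3 N e1 (fun y hy => e2 y (hsub y hy)) e4
          have e6 : ∃ s, 2 ^ s < 2 * k * cnt (wx F E (decide (T x)) x s N) (2 ^ s) := by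
            by_contra hcon
            push Not at hcon
            apply g5
            rw [hQ]
            exact ⟨N, e1, e2 _ hxE', fun y hy => e2 y (hsub y hy), hE' ▸ e3, hcon⟩
          obtain ⟨s1, hs1⟩ := e6
          intro s
          obtain ⟨t, ht⟩ : ∃ t, t = max s s1 := ⟨_, rfl⟩
          have hst : s ≤ t := by rw [ht]; exact le_max_left _ _
          have hs1t : s1 ≤ t := by rw [ht]; exact le_max_right _ _
          have e7 := e5 t
          have e8 : cnt (rz F E' t N) (2 ^ t) + cnt (wx F E (decide (T x)) x t N) (2 ^ t)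
              ≤ cnt (rz F E t N) (2 ^ t) := by
            rw [cnt_eq, cnt_eq, cnt_eq, ← Finset.card_union_of_disjoint]
            · refine Finset.card_le_card fun i hi => ?_
              rw [Finset.mem_union, Finset.mem_filter, Finset.mem_filter] at hi
              rw [Finset.mem_filter, rz_iff]
              rcases hi with ⟨i1, i2⟩ | ⟨i1, i2⟩
              · rw [rz_iff] at i2
                exact ⟨i1, fun y hy => i2 y (hsub y hy)⟩
              · rw [wx_iff] at i2
                exact ⟨i1, i2.2⟩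
            · rw [Finset.disjoint_left]
              intro i hi hi2
              rw [Finset.mem_filter, rz_iff] at hi
              rw [Finset.mem_filter, wx_iff] at hi2
              obtain ⟨⟨a, ha, hab⟩, _⟩ := hi2.2
              rw [hi.2 _ hxE'] at ha
              exact hab (Option.some.inj ha).symm
          have e9 := scale_le (s := s1) (s' := t) hs1t
            (p := fun i => wx F E (decide (T x)) x s1 N i = true)
            (q := fun i => wx F E (decide (T x)) x t N i = true)
            (fun i hi => mwx E _ x s1 t N i hs1t hi)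
          rw [← cnt_eq, ← cnt_eq] at e9
          have e10 : 2 ^ t < 2 * k * cnt (wx F E (decide (T x)) x t N) (2 ^ t) := by
            calc 2 ^ t = 2 ^ (t - s1) * 2 ^ s1 := by rw [← pow_add]; congr 1; omega
              _ < 2 ^ (t - s1) * (2 * k * cnt (wx F E (decide (T x)) x s1 N) (2 ^ s1)) :=
                  Nat.mul_lt_mul_of_pos_left hs1 (by positivity)
              _ = 2 * k * (2 ^ (t - s1) * cnt (wx F E (decide (T x)) x s1 N) (2 ^ s1)) := by ring
              _ ≤ _ := Nat.mul_le_mul_left _ e9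
          have e11 : 2 * k * cnt (rz F E' t N) (2 ^ t) + (j + 1) * 2 ^ t ≤ 2 * k * 2 ^ t := by
            have e12 := Nat.mul_le_mul_left (2 * k) e8
            rw [Nat.mul_add] at e12
            have e13 : (j + 1) * 2 ^ t = j * 2 ^ t + 2 ^ t := by ring
            rw [e13]
            omega
          have e12 := scale_le (s := s) (s' := t) hst (p := fun i => rz F E' s N i = true)
            (q := fun i => rz F E' t N i = true) (fun i hi => mrz E' s t N i hst hi)
          rw [← cnt_eq, ← cnt_eq] at e12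
          have e13 : 2 ^ (t - s) * (2 * k * cnt (rz F E' s N) (2 ^ s) + (j + 1) * 2 ^ s)
              ≤ 2 ^ (t - s) * (2 * k * 2 ^ s) := by
            have e14 : 2 ^ t = 2 ^ (t - s) * 2 ^ s := by rw [← pow_add]; congr 1; omega
            calc 2 ^ (t - s) * (2 * k * cnt (rz F E' s N) (2 ^ s) + (j + 1) * 2 ^ s)
                = 2 * k * (2 ^ (t - s) * cnt (rz F E' s N) (2 ^ s)) + (j + 1) * 2 ^ t := by
                  rw [e14]; ring
              _ ≤ 2 * k * cnt (rz F E' t N) (2 ^ t) + (j + 1) * 2 ^ t := by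
                  exact Nat.add_le_add_right (Nat.mul_le_mul_left _ e12) _
              _ ≤ 2 * k * 2 ^ t := e11
              _ = 2 ^ (t - s) * (2 * k * 2 ^ s) := by rw [e14]; ring
          exact Nat.le_of_mul_le_mul_left e13 (by positivity)
    obtain ⟨E, g1, g2, g3⟩ := h1 (2 * k + 1)
    obtain ⟨N, n1, n2, n3⟩ := ((hfreq E g1).and_eventually
      ((hadE E g1).and (eventually_ge_atTop N0))).exists
    have h5 := g3 N n3 n2 n1 0
    rw [pow_zero, Nat.mul_one, Nat.mul_one] at h5
    omega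
  obtain ⟨E, hE, hE2, hE3⟩ := hcl
  rw [hQ] at hE3
  have hE' := hE
  rw [hG] at hE'
  obtain ⟨adE, hadE1⟩ : ∃ adE : ℕ → Bool, adE = fun N => E.all fun y => adm (y.1, N) := ⟨_, rfl⟩
  have cadE : Computable adE := by
    rw [hadE1]
    exact all_comp (f := fun (y : X × Bool) (N : ℕ) => adm (y.1, N))
      (fun y => hadm.comp ((Computable.const y.1).pair Computable.id)) _
  have hadE2 : ∀ N, adE N = true ↔ ∀ y ∈ E, adm (y.1, N) = true := by
    intro N
    rw [hadE1]
    simp only [List.all_eq_true]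
  obtain ⟨w, hw⟩ : ∃ w : Bool → X × ℕ → Bool, w = fun b z =>
    decide (2 * k * cnt (wx F E b z.1 z.2.unpair.2 z.2.unpair.1) (2 ^ z.2.unpair.2)
      ≤ 2 ^ z.2.unpair.2) := ⟨_, rfl⟩
  obtain ⟨t, ht⟩ : ∃ t : X × ℕ → Bool, t = fun z => (decide (N0 ≤ z.2.unpair.1) &&
    (adm (z.1, z.2.unpair.1) && adE z.2.unpair.1)) &&
    (decide ((c - 1) * 2 ^ z.2.unpair.2 + 1 ≤
      m * cnt (hx F E z.1 z.2.unpair.2 z.2.unpair.1) (2 ^ z.2.unpair.2)) &&
      (w true z || w false z)) := ⟨_, rfl⟩
  have le_N : Primrec (fun n : ℕ => decide (N0 ≤ n)) :=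
    (PrimrecPred.decide (p := fun n : ℕ => N0 ≤ n) (Primrec.nat_le.comp (Primrec.const N0) Primrec.id))
  have le_w : Primrec (fun n : ℕ × ℕ => decide (2 * k * n.1 ≤ n.2)) :=
    Pool.Agent.Q324.SC.pble (Pool.Agent.Q324.SC.pmul (Primrec.const _) Primrec.fst) Primrec.snd
  have le_h : Primrec (fun n : ℕ × ℕ => decide ((c - 1) * n.2 + 1 ≤ m * n.1)) :=
    Pool.Agent.Q324.SC.pble (Pool.Agent.Q324.SC.padd (Pool.Agent.Q324.SC.pmul (Primrec.const _)
      Primrec.snd) (Primrec.const 1)) (Pool.Agent.Q324.SC.pmul (Primrec.const _) Primrec.fst)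
  have cw : ∀ b, Computable (w b) := by
    intro b
    rw [hw]
    exact Computable.comp (f := fun n : ℕ × ℕ => decide (2 * k * n.1 ≤ n.2))
      (g := fun z : X × ℕ => (cnt (wx F E b z.1 z.2.unpair.2 z.2.unpair.1) (2 ^ z.2.unpair.2),
        2 ^ z.2.unpair.2)) le_w.to_comp ((cw_comp hF E b).pair pow_comp)
  have ct : Computable t := by
    rw [ht]
    refine Primrec.and.to_comp.comp (Primrec.and.to_comp.comp (le_N.to_comp.comp un1)
      (Primrec.and.to_comp.comp (hadm.comp (Computable.fst.pair un1)) (cadE.comp un1))) ?_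
    refine Primrec.and.to_comp.comp ?_ (Primrec.or.to_comp.comp (cw true) (cw false))
    exact Computable.comp (f := fun n : ℕ × ℕ => decide ((c - 1) * n.2 + 1 ≤ m * n.1))
      (g := fun z : X × ℕ => (cnt (hx F E z.1 z.2.unpair.2 z.2.unpair.1) (2 ^ z.2.unpair.2),
        2 ^ z.2.unpair.2)) le_h.to_comp ((ch_comp hF E).pair pow_comp)
  have ht2 : ∀ z, t z = true ↔ (N0 ≤ z.2.unpair.1 ∧ adm (z.1, z.2.unpair.1) = true ∧
      ∀ y ∈ E, adm (y.1, z.2.unpair.1) = true) ∧
      ((c - 1) * 2 ^ z.2.unpair.2 <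
        m * cnt (hx F E z.1 z.2.unpair.2 z.2.unpair.1) (2 ^ z.2.unpair.2)) ∧
      (w true z = true ∨ w false z = true) := by
    intro z
    rw [ht]
    simp only [Bool.and_eq_true, Bool.or_eq_true, hadE2, decide_eq_true_eq, Nat.succ_le_iff,
      Nat.add_one_le_iff]
  have hw2 : ∀ b z, w b z = true ↔
      2 * k * cnt (wx F E b z.1 z.2.unpair.2 z.2.unpair.1) (2 ^ z.2.unpair.2)
        ≤ 2 ^ z.2.unpair.2 := by
    intro b z
    rw [hw]
    simp only [decide_eq_true_eq]
  refine ⟨fun x => (Nat.rfind fun M => Part.some (t (x, M))).map fun M => w true (x, M), ?_, ?_⟩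
  · refine Partrec.map (Partrec.rfind (p := fun x M => Part.some (t (x, M))) ?_) ?_
    · exact ct
    · exact cw true
  · intro x hx0
    -- soundness
    have hsound : ∀ M, t (x, M) = true → ∀ b, w b (x, M) = true → b = decide (T x) := by
      intro M hM b hb
      rw [ht2] at hM
      obtain ⟨⟨m0, m1, m2⟩, m3, _⟩ := hM
      rw [hw2] at hb
      change 2 * k * cnt (wx F E b x M.unpair.2 M.unpair.1) (2 ^ M.unpair.2) ≤ 2 ^ M.unpair.2 at hb
      change (c - 1) * 2 ^ M.unpair.2 < m * cnt (hx F E x M.unpair.2 M.unpair.1)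
        (2 ^ M.unpair.2) at m3
      change N0 ≤ M.unpair.1 at m0
      change adm (x, M.unpair.1) = true at m1
      change ∀ y ∈ E, adm (y.1, M.unpair.1) = true at m2
      obtain ⟨N, hN⟩ : ∃ N, N = M.unpair.1 := ⟨_, rfl⟩
      obtain ⟨s, hs⟩ : ∃ s, s = M.unpair.2 := ⟨_, rfl⟩
      rw [← hN, ← hs] at m3 hb
      rw [← hN] at m0 m1 m2
      by_contra hbT
      obtain ⟨Z, hZ⟩ : ∃ Z, Z = (x, decide (T x)) :: E := ⟨_, rfl⟩
      have hxZ : (x, decide (T x)) ∈ Z := by rw [hZ]; simp
      have hsubZ : ∀ y ∈ E, y ∈ Z := fun y hy => by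
        rw [hZ]
        exact List.mem_cons_of_mem _ hy
      have hGZ : G Z := by
        rw [hG, hZ]
        intro y hy
        rcases List.mem_cons.1 hy with rfl | hy
        · exact ⟨hx0, rfl⟩
        · exact hE' y hy
      obtain ⟨u, hu, hu2⟩ := hfin N Z hGZ (by
        intro y hy
        rw [hZ] at hy
        rcases List.mem_cons.1 hy with rfl | hy
        · exact m1
        · exact m2 y hy) s
      -- the sets of the seeds
      obtain ⟨A, hA⟩ : ∃ A, A = (Finset.range (2 ^ u)).filter fun i => rz F Z u N i = true :=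
        ⟨_, rfl⟩
      obtain ⟨B, hB⟩ : ∃ B, B = (Finset.range (2 ^ u)).filter fun i => hz F E0 u N i = true :=
        ⟨_, rfl⟩
      obtain ⟨H, hH⟩ : ∃ H, H = (Finset.range (2 ^ u)).filter
        fun i => hx F E x s N (i % 2 ^ s) = true := ⟨_, rfl⟩
      obtain ⟨W, hW⟩ : ∃ W, W = (Finset.range (2 ^ u)).filter
        fun i => wx F E b x s N (i % 2 ^ s) = true := ⟨_, rfl⟩
      have q1 : 2 ^ u ≤ k * A.card := by rw [hA, ← cnt_eq]; exact hu2
      have q2 : m * B.card ≤ c * 2 ^ u := by rw [hB, ← cnt_eq]; exact hN0 N m0 u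
      have q0 : 2 ^ u = 2 ^ (u - s) * 2 ^ s := by rw [← pow_add]; congr 1; omega
      have q3 : (c - 1) * 2 ^ u < m * H.card := by
        rw [hH, scale_eq (s := s) (s' := u) hu (p := fun i => hx F E x s N i = true), ← cnt_eq]
        calc (c - 1) * 2 ^ u = 2 ^ (u - s) * ((c - 1) * 2 ^ s) := by rw [q0]; ring
          _ < 2 ^ (u - s) * (m * cnt (hx F E x s N) (2 ^ s)) :=
              Nat.mul_lt_mul_of_pos_left m3 (by positivity)
          _ = _ := by ring
      have q4 : 2 * k * W.card ≤ 2 ^ u := by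
        rw [hW, scale_eq (s := s) (s' := u) hu (p := fun i => wx F E b x s N i = true), ← cnt_eq]
        calc 2 * k * (2 ^ (u - s) * cnt (wx F E b x s N) (2 ^ s))
            = 2 ^ (u - s) * (2 * k * cnt (wx F E b x s N) (2 ^ s)) := by ring
          _ ≤ 2 ^ (u - s) * 2 ^ s := Nat.mul_le_mul_left _ hb
          _ = 2 ^ u := q0.symm
      have q5 : A ⊆ B := by
        rw [hA, hB]
        intro i hi
        rw [Finset.mem_filter] at hi ⊢
        exact ⟨hi.1, hzsub E0 Z u N i (fun y hy => hsubZ y (hE2 y hy)) (rle Z u N i hi.2)⟩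
      have q6 : H ⊆ B := by
        rw [hH, hB]
        intro i hi
        rw [Finset.mem_filter] at hi ⊢
        refine ⟨hi.1, hzsub E0 E u N i hE2 (mhz E s u N i hu ?_)⟩
        rw [hx_iff] at hi
        rw [hz_iff]
        exact hi.2.2
      have q7 : A ∩ H ⊆ W := by
        intro i hi
        rw [Finset.mem_inter, hA, hH, Finset.mem_filter, Finset.mem_filter] at hi
        rw [hW, Finset.mem_filter]
        refine ⟨hi.1.1, ?_⟩
        have i1 := rz_iff.1 hi.1.2
        obtain ⟨⟨a, ha⟩, i2⟩ := hx_iff.1 hi.2.2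
        rw [wx_iff]
        refine ⟨⟨a, ha, ?_⟩, fun y hy => ?_⟩
        · have i3 := hmono s u i x N a hu ha
          rw [i1 _ hxZ] at i3
          rw [← Option.some.inj i3]
          exact fun h4 => hbT h4.symm
        · obtain ⟨a', ha'⟩ := i2 y hy
          have i3 := hmono s u i y.1 N a' hu ha'
          rw [i1 y (hsubZ y hy)] at i3
          rw [ha', Option.some.inj i3]
      have q8 : A.card + H.card ≤ B.card + (A ∩ H).card := by
        rw [← Finset.card_union_add_card_inter]
        exact Nat.add_le_add_right (Finset.card_le_card (Finset.union_subset q5 q6)) _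
      have q9 := Finset.card_le_card q7
      have r1 : m * A.card + m * H.card ≤ m * B.card + m * (A ∩ H).card := by
        have := Nat.mul_le_mul_left m q8
        rwa [Nat.mul_add, Nat.mul_add] at this
      have r2 : 4 * 2 ^ u ≤ m * A.card := by
        rw [hm]
        calc 4 * 2 ^ u ≤ 4 * (k * A.card) := Nat.mul_le_mul_left _ q1
          _ = 4 * k * A.card := by ring
      have r3 : m * (A ∩ H).card ≤ 2 * 2 ^ u := by
        rw [hm]
        calc 4 * k * (A ∩ H).card ≤ 4 * k * W.card := Nat.mul_le_mul_left _ q9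
          _ = 2 * (2 * k * W.card) := by ring
          _ ≤ 2 * 2 ^ u := Nat.mul_le_mul_left _ q4
      have r4 : c * 2 ^ u = (c - 1) * 2 ^ u + 2 ^ u := by
        obtain ⟨d, hd⟩ : ∃ d, c = d + 1 := ⟨c - 1, by omega⟩
        rw [hd, Nat.add_sub_cancel]
        ring
      have r5 : 0 < 2 ^ u := by positivity
      omega
    -- the search ends
    have hex : ∃ M, t (x, M) = true := by
      obtain ⟨N, q1, q2, q3, ⟨s, q4⟩, q5⟩ := hE3 x hx0
      refine ⟨Nat.pair N s, ?_⟩
      rw [ht2]
      simp only [Nat.unpair_pair]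
      refine ⟨⟨q1, q2, q3⟩, ?_, ?_⟩
      · refine q4.trans_le (Nat.mul_le_mul_left _ (cnt_le_of fun i _ hi => ?_))
        rw [hz_iff] at hi
        rw [hx_iff]
        exact ⟨hi (x, decide (T x)) (by simp), fun y hy => hi y (List.mem_cons_of_mem _ hy)⟩
      · have key : w (decide (T x)) (x, Nat.pair N s) = true := by
          rw [hw2]
          simp only [Nat.unpair_pair]
          exact q5 s
        cases hd : decide (T x)
        · rw [hd] at key
          exact Or.inr key
        · rw [hd] at key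
          exact Or.inl key
    obtain ⟨M, hM⟩ := hex
    have hdom : (Nat.rfind fun M => Part.some (t (x, M))).Dom := by
      exact Nat.rfind_dom.2 ⟨M, by simpa using hM.symm, fun _ => trivial⟩
    obtain ⟨M', hM'⟩ := Part.dom_iff_mem.1 hdom
    have hM2 : t (x, M') = true := by
      exact (Part.mem_some_iff.1 (Nat.mem_rfind.1 hM').1).symm
    refine ⟨w true (x, M'), Part.eq_some_iff.2 (Part.mem_map _ hM'), ?_⟩
    constructor
    · intro h4
      exact of_decide_eq_true (hsound M' hM2 true h4).symm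
    · intro h4
      rcases ((ht2 _).1 hM2).2.2 with h5 | h5
      · exact h5
      · have h6 := hsound M' hM2 false h5
        rw [decide_eq_true h4] at h6
        exact absurd h6 (by decide)

end Pool.Agent.H34.RO
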