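import Mathlib
import Pool.Agent.H34.RO.Core

/-!
# Stages of a randomised algorithm

A randomised algorithm is a partial recursive function `f ((l, i), a)`, where `i < 2 ^ l` is the
number formed by the first `l` random bits; further random bits do not change an output.
-/

set_option autoImplicit false

namespace Pool.Agent.H34.RO

open Encodable

/-- The values of a partial recursive function at a stage. -/
theorem stagesG {β γ : Type} [Primcodable β] [Primcodable γ] {f : β →. γ} (hf : Partrec f) :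
    ∃ st : ℕ × β → Option γ, Computable st ∧
      (∀ s s' a b, s ≤ s' → st (s, a) = some b → st (s', a) = some b) ∧
      ∀ a b, (∃ s, st (s, a) = some b) ↔ b ∈ f a := by
  obtain ⟨c, hc⟩ := Nat.Partrec.Code.exists_code.1 hf
  have hc2 : ∀ a, Nat.Partrec.Code.eval c (encode a) = (f a).map encode := by
    intro a
    rw [hc]
    simp
  refine ⟨fun x => (Nat.Partrec.Code.evaln x.1 c (encode x.2)).bind
    (fun n => (decode n : Option γ)), ?_, ?_, ?_⟩
  · refine Primrec.to_comp ?_
    refine Primrec.option_bind (f := fun x : ℕ × β => Nat.Partrec.Code.evaln x.1 c (encode x.2))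
      (g := fun _ n => (decode n : Option γ)) ?_ ?_
    · exact Nat.Partrec.Code.primrec_evaln.comp
        ((Primrec.fst.pair (Primrec.const c)).pair (Primrec.encode.comp Primrec.snd))
    · exact Primrec.decode.comp Primrec.snd
  · intro s s' a b hs h
    rw [Option.bind_eq_some_iff] at h ⊢
    obtain ⟨n, hn, hn2⟩ := h
    exact ⟨n, Nat.Partrec.Code.evaln_mono hs hn, hn2⟩
  · intro a b
    constructor
    · rintro ⟨s, h⟩
      rw [Option.bind_eq_some_iff] at h
      obtain ⟨n, hn, hn2⟩ := h
      have h1 := Nat.Partrec.Code.evaln_sound hn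
      rw [hc2] at h1
      obtain ⟨b', hb', rfl⟩ := (Part.mem_map_iff _).1 h1
      rw [encodek, Option.some.injEq] at hn2
      rwa [← hn2]
    · intro hb
      have h1 : encode b ∈ Nat.Partrec.Code.eval c (encode a) := by
        rw [hc2]
        exact Part.mem_map _ hb
      obtain ⟨s, hs⟩ := Nat.Partrec.Code.evaln_complete.1 h1
      refine ⟨s, ?_⟩
      rw [Option.bind_eq_some_iff]
      exact ⟨_, hs, encodek b⟩

section
variable {β γ : Type} (st : ℕ × (ℕ × ℕ) × β → Option γ)

/-- the first value for a prefix of the seed, of length less than `n` -/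
def pre (z : (ℕ × ℕ) × β) (n : ℕ) : Option γ :=
  Nat.rec (motive := fun _ => Option γ) none
    (fun j a => a <|> st (z.1.1, ((j, z.1.2 % 2 ^ j), z.2))) n

lemma pre_succ (z : (ℕ × ℕ) × β) (n : ℕ) : pre st z (n + 1) =
    (pre st z n <|> st (z.1.1, ((n, z.1.2 % 2 ^ n), z.2))) := rfl

lemma pre_some {z : (ℕ × ℕ) × β} {n : ℕ} {b : γ} (h : pre st z n = some b) :
    ∃ j < n, st (z.1.1, ((j, z.1.2 % 2 ^ j), z.2)) = some b := by
  induction n with
  | zero => exact absurd h (by simp [pre])
  | succ n ih =>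
    rw [pre_succ] at h
    cases h1 : pre st z n with
    | none =>
      rw [h1] at h
      exact ⟨n, Nat.lt_succ_self n, by simpa using h⟩
    | some a =>
      rw [h1] at h
      obtain ⟨j, hj, hj2⟩ := ih (by rw [h1]; simpa using h)
      exact ⟨j, by omega, hj2⟩

lemma pre_isSome {z : (ℕ × ℕ) × β} {n j : ℕ} {b : γ} (hj : j < n)
    (h : st (z.1.1, ((j, z.1.2 % 2 ^ j), z.2)) = some b) : ∃ a, pre st z n = some a := by
  induction n with
  | zero => omega
  | succ n ih =>
    rw [pre_succ]
    rcases Nat.lt_succ_iff_lt_or_eq.1 hj with h1 | h1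
    · obtain ⟨a, ha⟩ := ih h1
      exact ⟨a, by rw [ha]; rfl⟩
    · cases h2 : pre st z n with
      | none =>
        rw [← h1, h]
        exact ⟨b, rfl⟩
      | some a => exact ⟨a, rfl⟩

end

/-- The stages of a randomised algorithm. -/
theorem mstages {β γ : Type} [Primcodable β] [Primcodable γ] {f : (ℕ × ℕ) × β →. γ}
    (hf : Partrec f)
    (hm : ∀ l l' i a b, l ≤ l' → b ∈ f ((l, i % 2 ^ l), a) → b ∈ f ((l', i), a)) :
    ∃ g : (ℕ × ℕ) × β → Option γ, Computable g ∧
      (∀ s s' i a b, s ≤ s' → g ((s, i % 2 ^ s), a) = some b → g ((s', i), a) = some b) ∧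
      (∀ s i a b, g ((s, i), a) = some b → b ∈ f ((s, i), a)) ∧
      ∀ l i a b, b ∈ f ((l, i), a) → ∃ s, l ≤ s ∧ ∀ j, j % 2 ^ l = i → g ((s, j), a) = some b := by
  obtain ⟨st, cst, mst, vst⟩ := stagesG hf
  have hv : ∀ s i a b, pre st ((s, i), a) (s + 1) = some b → b ∈ f ((s, i), a) := by
    intro s i a b h
    obtain ⟨j, hj, hj2⟩ := pre_some st h
    exact hm j s i a b (by omega) ((vst _ _).1 ⟨s, hj2⟩)
  have hu : ∀ s i a b j, j ≤ s → st (s, ((j, i % 2 ^ j), a)) = some b →
      pre st ((s, i), a) (s + 1) = some b := by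
    intro s i a b j hj h
    obtain ⟨c, hc⟩ := pre_isSome st (z := ((s, i), a)) (n := s + 1) (by omega) h
    have h1 := hv s i a c hc
    have h2 : b ∈ f ((s, i), a) := hm j s i a b hj ((vst _ _).1 ⟨s, h⟩)
    rw [hc, Part.mem_unique h1 h2]
  refine ⟨fun z => pre st z (z.1.1 + 1), ?_, ?_, hv, ?_⟩
  · refine Computable.nat_rec (f := fun z : (ℕ × ℕ) × β => z.1.1 + 1) (g := fun _ => none)
      (h := fun z p => p.2 <|> st (z.1.1, ((p.1, z.1.2 % 2 ^ p.1), z.2))) ?_ ?_ ?_
    · exact Computable.succ.comp (Computable.fst.comp Computable.fst)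
    · exact Computable.const none
    · have h1 : Computable (fun x : ((ℕ × ℕ) × β) × ℕ × Option γ =>
          st (x.1.1.1, ((x.2.1, x.1.1.2 % 2 ^ x.2.1), x.1.2))) := by
        have q : Primrec (fun x : ((ℕ × ℕ) × β) × ℕ × Option γ =>
            (x.1.1.1, ((x.2.1, x.1.1.2 % 2 ^ x.2.1), x.1.2))) := by fun_prop
        exact cst.comp q.to_comp
      have h2 : Computable (fun x : ((ℕ × ℕ) × β) × ℕ × Option γ =>
          (x.2.2 <|> st (x.1.1.1, ((x.2.1, x.1.1.2 % 2 ^ x.2.1), x.1.2)))) :=
        Computable.comp (f := fun y : Option γ × Option γ => (y.1 <|> y.2))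
          (g := fun x : ((ℕ × ℕ) × β) × ℕ × Option γ =>
            (x.2.2, st (x.1.1.1, ((x.2.1, x.1.1.2 % 2 ^ x.2.1), x.1.2))))
          (Primrec.option_orElse (α := γ)).to_comp
          ((Computable.snd.comp Computable.snd).pair h1)
      exact h2
  · intro s s' i a b hs h
    obtain ⟨j, hj, hj2⟩ := pre_some st h
    change j < s + 1 at hj
    change st (s, ((j, i % 2 ^ s % 2 ^ j), a)) = some b at hj2
    rw [Nat.mod_mod_of_dvd _ (pow_dvd_pow 2 (by omega : j ≤ s))] at hj2
    exact hu s' i a b j (by omega) (mst s s' _ b hs hj2)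
  · intro l i a b hb
    obtain ⟨s, hs⟩ := (vst _ _).2 hb
    refine ⟨max s l, le_max_right _ _, fun j hj => ?_⟩
    refine hu (max s l) j a b l (le_max_right _ _) ?_
    rw [hj]
    exact mst s _ _ b (le_max_left _ _) hs

end Pool.Agent.H34.RO
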