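import Mathlib
import Pool.Agent.H34.RO.Stage

/-!
# Seeds as lists of bits
-/

set_option autoImplicit false

namespace Pool.Agent.H34.RO

open Pool.Agent.Q324.SC

/-- the first `l` binary digits of `i` -/
def bits (l i : ℕ) : List Bool := (List.range l).map fun t => decide (i / 2 ^ t % 2 = 1)

lemma bits_length (l i : ℕ) : (bits l i).length = l := by simp [bits]

lemma bits_primrec : Primrec (fun x : ℕ × ℕ => bits x.1 x.2) := by
  unfold bits
  exact pmap (f := fun x : ℕ × ℕ => List.range x.1)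
    (g := fun (x : ℕ × ℕ) t => decide (x.2 / 2 ^ t % 2 = 1)) (by fun_prop) (by fun_prop)

lemma bits_succ (l i : ℕ) : bits (l + 1) i = bits l i ++ [decide (i / 2 ^ l % 2 = 1)] := by
  simp [bits, List.range_succ]

lemma bits_mod (l l' i : ℕ) (h : l ≤ l') : bits l (i % 2 ^ l') = bits l i := by
  unfold bits
  refine List.map_congr_left fun t ht => ?_
  rw [List.mem_range] at ht
  have h1 : 2 ^ l' = 2 ^ t * 2 ^ (l' - t) := by rw [← pow_add]; congr 1; omega
  have h2 : i % 2 ^ l' / 2 ^ t % 2 = i / 2 ^ t % 2 := by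
    rw [h1, Nat.mod_mul_right_div_self, Nat.mod_mod_of_dvd]
    exact dvd_pow_self 2 (by omega)
  rw [h2]

lemma bits_prefix (l l' i : ℕ) (h : l ≤ l') : ∃ τ, bits l' i = bits l i ++ τ := by
  obtain ⟨t, rfl⟩ := Nat.exists_eq_add_of_le h
  induction t with
  | zero => exact ⟨[], by simp⟩
  | succ t ih =>
    obtain ⟨τ, hτ⟩ := ih (by omega)
    refine ⟨τ ++ [decide (i / 2 ^ (l + t) % 2 = 1)], ?_⟩
    rw [← Nat.add_assoc, bits_succ, hτ, List.append_assoc]

lemma bits_surj (σ : List Bool) : ∃ i < 2 ^ σ.length, bits σ.length i = σ := by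
  induction σ using List.reverseRecOn with
  | nil => exact ⟨0, by simp, rfl⟩
  | append_singleton τ b ih =>
    obtain ⟨i, hi, hi2⟩ := ih
    have hlen : (τ ++ [b]).length = τ.length + 1 := by simp
    rw [hlen]
    refine ⟨i + (if b then 1 else 0) * 2 ^ τ.length, ?_, ?_⟩
    · rw [pow_succ]
      cases b <;> simp <;> omega
    · have h1 : (i + (if b then 1 else 0) * 2 ^ τ.length) % 2 ^ τ.length = i := by
        rw [Nat.add_mul_mod_self_right, Nat.mod_eq_of_lt hi]
      have h2 : (i + (if b then 1 else 0) * 2 ^ τ.length) / 2 ^ τ.length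
          = if b then 1 else 0 := by
        rw [Nat.add_mul_div_right _ _ (by positivity), Nat.div_eq_of_lt hi, Nat.zero_add]
      rw [bits_succ, h2, ← bits_mod _ _ _ le_rfl, h1, hi2]
      cases b <;> simp

end Pool.Agent.H34.RO
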