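import Mathlib
import Pool.Agent.H34.RO.Stage
import Pool.Graph.R_pool_sql_team_seeded_2aa45f1a.Q287.BA.TriP

/-!
# Randomised algorithms with a small probability of success and few failures: pairs of complexes
-/

set_option autoImplicit false

namespace Pool.Agent.H34.RO

open Nat Filter Pool.Agent.Q324.SC Pool.Agent.Q324.SC.Tri Pool.Agent.Q287.BA Pool.Agent.Q287.BA.Tri

/-- the `j`-th pair of subdivisions -/
def d1 (x : Cx × Cx) (ab : ℕ × ℕ) (j : ℕ) : Cx × Cx :=
  pk x.1 x.2 (ab.1 - x.1.length / 4) (ab.2 - x.2.length / 4) j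

/-- the number of the pairs of subdivisions -/
def d2 (x : Cx × Cx) (ab : ℕ × ℕ) : ℕ :=
  P x.1.length (ab.1 - x.1.length / 4) * P x.2.length (ab.2 - x.2.length / 4)

theorem d1_primrec : Primrec (fun x : ((Cx × Cx) × (ℕ × ℕ)) × ℕ => d1 x.1.1 x.1.2 x.2) := by
  have q : Primrec (fun x : ((Cx × Cx) × (ℕ × ℕ)) × ℕ => (x.1.1.1, x.1.1.2,
      x.1.2.1 - x.1.1.1.length / 4, x.1.2.2 - x.1.1.2.length / 4, x.2)) := by fun_prop
  exact pk_primrec.comp q

theorem d2_primrec : Primrec (fun x : (Cx × Cx) × (ℕ × ℕ) => d2 x.1 x.2) := by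
  have pP : Primrec (fun x : (Cx × Cx) × (ℕ × ℕ) => P x.1.1.length (x.2.1 - x.1.1.length / 4)) :=
    P_primrec.comp (g := fun x : (Cx × Cx) × (ℕ × ℕ) =>
      (x.1.1.length, x.2.1 - x.1.1.length / 4)) (by fun_prop)
  have pP' : Primrec (fun x : (Cx × Cx) × (ℕ × ℕ) => P x.1.2.length (x.2.2 - x.1.2.length / 4)) :=
    P_primrec.comp (g := fun x : (Cx × Cx) × (ℕ × ℕ) =>
      (x.1.2.length, x.2.2 - x.1.2.length / 4)) (by fun_prop)
  exact pmul pP pP'

/-- the votes -/
def FF (fg : (ℕ × ℕ) × ((ℕ × ℕ) × Cx × Cx) → Option Bool)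
    (zg : (ℕ × ℕ) × (ℕ × ℕ) → Option (ℕ × ℕ)) (r : ℕ) (y : (ℕ × ℕ) × (Cx × Cx) × ℕ) :
    Option Bool :=
  (zg (y.1, (r, y.2.2))).bind fun ab =>
    Tz.maj (fun j => fg (y.1, ((r, y.2.2), d1 y.2.1 ab j))) (d2 y.2.1 ab)

theorem FF_comp {fg : (ℕ × ℕ) × ((ℕ × ℕ) × Cx × Cx) → Option Bool}
    {zg : (ℕ × ℕ) × (ℕ × ℕ) → Option (ℕ × ℕ)} (cfg : Computable fg) (czg : Computable zg) (r : ℕ) :
    Computable (FF fg zg r) := by
  refine Computable.option_bind (f := fun y : (ℕ × ℕ) × (Cx × Cx) × ℕ => zg (y.1, (r, y.2.2)))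
    (g := fun (y : (ℕ × ℕ) × (Cx × Cx) × ℕ) (ab : ℕ × ℕ) =>
      Tz.maj (fun j => fg (y.1, ((r, y.2.2), d1 y.2.1 ab j))) (d2 y.2.1 ab)) ?_ ?_
  · exact czg.comp (Computable.fst.pair ((Computable.const r).pair
      (Computable.snd.comp Computable.snd)))
  · refine Tz.maj_comp (f := fun (x : ((ℕ × ℕ) × (Cx × Cx) × ℕ) × (ℕ × ℕ)) j =>
      fg (x.1.1, ((r, x.1.2.2), d1 x.1.2.1 x.2 j)))
      (m := fun x : ((ℕ × ℕ) × (Cx × Cx) × ℕ) × (ℕ × ℕ) => d2 x.1.2.1 x.2) ?_ ?_
    · have a1 : Computable (fun x : (((ℕ × ℕ) × (Cx × Cx) × ℕ) × (ℕ × ℕ)) × ℕ => x.1.1) :=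
        Computable.fst.comp Computable.fst
      have a2 : Computable (fun x : (((ℕ × ℕ) × (Cx × Cx) × ℕ) × (ℕ × ℕ)) × ℕ => x.1.1.1) :=
        Computable.fst.comp a1
      have a3 : Computable (fun x : (((ℕ × ℕ) × (Cx × Cx) × ℕ) × (ℕ × ℕ)) × ℕ => x.1.1.2.1) :=
        Computable.fst.comp (Computable.snd.comp a1)
      have a4 : Computable (fun x : (((ℕ × ℕ) × (Cx × Cx) × ℕ) × (ℕ × ℕ)) × ℕ => x.1.1.2.2) :=
        Computable.snd.comp (Computable.snd.comp a1)
      have a5 : Computable (fun x : (((ℕ × ℕ) × (Cx × Cx) × ℕ) × (ℕ × ℕ)) × ℕ => x.1.2) :=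
        Computable.snd.comp Computable.fst
      have a6 : Computable (fun x : (((ℕ × ℕ) × (Cx × Cx) × ℕ) × (ℕ × ℕ)) × ℕ =>
          d1 x.1.1.2.1 x.1.2 x.2) :=
        Computable.comp (f := fun x : ((Cx × Cx) × (ℕ × ℕ)) × ℕ => d1 x.1.1 x.1.2 x.2)
          (g := fun x : (((ℕ × ℕ) × (Cx × Cx) × ℕ) × (ℕ × ℕ)) × ℕ => ((x.1.1.2.1, x.1.2), x.2))
          d1_primrec.to_comp ((a3.pair a5).pair Computable.snd)
      exact cfg.comp (a2.pair (((Computable.const r).pair a4).pair a6))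
    · exact Computable.comp (f := fun x : (Cx × Cx) × (ℕ × ℕ) => d2 x.1 x.2)
        (g := fun x : ((ℕ × ℕ) × (Cx × Cx) × ℕ) × (ℕ × ℕ) => (x.1.2.1, x.2)) d2_primrec.to_comp
        ((Computable.fst.comp (Computable.snd.comp Computable.fst)).pair Computable.snd)

attribute [local irreducible] desc P mm cnt pk Tz.maj

set_option maxHeartbeats 2000000 in
/-- A randomised algorithm, which chooses the sizes of the complexes itself. -/
theorem gen (k C : ℕ) {f : (ℕ × ℕ) × ((ℕ × ℕ) × Cx × Cx) →. Bool} (hf : Partrec f)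
    (mf : ∀ l l' i a b, l ≤ l' → b ∈ f ((l, i % 2 ^ l), a) → b ∈ f ((l', i), a))
    {z : (ℕ × ℕ) × (ℕ × ℕ) →. ℕ × ℕ} (hz : Partrec z)
    (mz : ∀ l l' i a b, l ≤ l' → b ∈ z ((l, i % 2 ^ l), a) → b ∈ z ((l', i), a))
    {Pr Q : Cx → Cx → Prop}
    (hPr1 : ∀ L K c, Valid K → c < K.length → Pr K L → Pr (sub K c) L)
    (hPr2 : ∀ K L c, Valid L → c < L.length → Pr K L → Pr K (sub L c))
    (hQ1 : ∀ L K c, Valid K → c < K.length → (Q (sub K c) L ↔ Q K L))
    (hQ2 : ∀ K L c, Valid L → c < L.length → (Q K (sub L c) ↔ Q K L))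
    (h : ∀ r < 16, ∀ M, ∃ l, ∃ S : Finset ℕ, S ⊆ Finset.range (2 ^ l) ∧ 2 ^ l ≤ k * S.card ∧
      ∀ i ∈ S, ∃ a b, M ≤ a ∧ M ≤ b ∧ (a, b) ∈ z ((l, i), (r, M)) ∧
        (BadP2 (fun p => f ((l, i), ((r, M), p))) Pr Q (4 * a + r / 4) (4 * b + r % 4)).encard ≤
          ((bound C (4 * a + r / 4) * bound C (4 * b + r % 4) : ℕ) : ℕ∞)) :
    ∃ D : Cx × Cx →. Bool, Partrec D ∧
      ∀ K L, Valid K → Valid L → Pr K L → ∃ b, D (K, L) = Part.some b ∧ (b = true ↔ Q K L) := by
  classical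
  obtain ⟨fg, cfg, mfg, vfg, wfg⟩ := mstages hf mf
  obtain ⟨zg, czg, mzg, vzg, wzg⟩ := mstages hz mz
  have hcls : ∀ r, ∃ D : Cx × Cx →. Bool, r < 16 → Partrec D ∧ ∀ x : Cx × Cx,
      (Valid x.1 ∧ Valid x.2 ∧ Pr x.1 x.2) → 4 * (x.1.length % 4) + x.2.length % 4 = r →
      ∃ b, D x = Part.some b ∧ (b = true ↔ Q x.1 x.2) := by
    intro r
    by_cases hr : r < 16
    swap
    · exact ⟨fun _ => Part.none, fun h => absurd h hr⟩
    obtain ⟨F, hF⟩ : ∃ F : (ℕ × ℕ) × (Cx × Cx) × ℕ → Option Bool, F = FF fg zg r := ⟨_, rfl⟩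
    have cF : Computable F := by
      rw [hF]
      exact FF_comp cfg czg r
    have q1 : Primrec (fun x : (Cx × Cx) × ℕ => mm x.1.1.length C) :=
      mm_primrec.comp (g := fun x : (Cx × Cx) × ℕ => (x.1.1.length, C)) (by fun_prop)
    have q1' : Primrec (fun x : (Cx × Cx) × ℕ => mm x.1.2.length C) :=
      mm_primrec.comp (g := fun x : (Cx × Cx) × ℕ => (x.1.2.length, C)) (by fun_prop)
    have q2 : Primrec (fun x : (Cx × Cx) × ℕ => (x.1.1.length / 4 + mm x.1.1.length C) +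
        (x.1.2.length / 4 + mm x.1.2.length C)) :=
      padd (padd (by fun_prop) q1) (padd (by fun_prop) q1')
    have hadm : Computable (fun x : (Cx × Cx) × ℕ => decide (
        (x.1.1.length / 4 + mm x.1.1.length C) + (x.1.2.length / 4 + mm x.1.2.length C) ≤ x.2)) :=
      (pble q2 (by fun_prop)).to_comp
    obtain ⟨D, hD, hD2⟩ := frac (X := Cx × Cx)
      (P := fun p => (Valid p.1 ∧ Valid p.2 ∧ Pr p.1 p.2) ∧
        4 * (p.1.length % 4) + p.2.length % 4 = r) (T := fun p => Q p.1 p.2) (k := k)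
      (adm := fun x : (Cx × Cx) × ℕ => decide (
        (x.1.1.length / 4 + mm x.1.1.length C) + (x.1.2.length / 4 + mm x.1.2.length C) ≤ x.2))
      cF hadm
      (by
        intro s s' i x N b hs hb
        rw [hF] at hb ⊢
        unfold FF at hb ⊢
        rw [Option.bind_eq_some_iff] at hb ⊢
        obtain ⟨ab, h1, h2⟩ := hb
        refine ⟨ab, mzg s s' i _ ab hs h1, ?_⟩
        exact Tz.maj_mono (fun j _ b hj => mfg s s' i _ b hs hj) h2)
      (fun p _ => by
        filter_upwards [eventually_ge_atTop ((p.1.length / 4 + mm p.1.length C) +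
          (p.2.length / 4 + mm p.2.length C))] with N hN
        exact decide_eq_true hN)
      (by
        intro M Z hZ
        obtain ⟨l, S, hS, hS2, hS3⟩ := h r hr M
        refine ⟨l, S, hS, hS2, ?_⟩
        rintro i hi ⟨K, L⟩ hKLZ
        obtain ⟨⟨⟨hK, hL, hP⟩, hr2⟩, hadmK⟩ := hZ _ hKLZ
        obtain ⟨a, b, ha, hb, hab, hi2⟩ := hS3 i hi
        have hle : (K.length / 4 + mm K.length C) + (L.length / 4 + mm L.length C) ≤ M :=
          of_decide_eq_true hadmK
        change 4 * (K.length % 4) + L.length % 4 = r at hr2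
        have e1 : K.length + 4 * (a - K.length / 4) = 4 * a + r / 4 := by
          have := Nat.div_add_mod K.length 4
          have := Nat.mod_lt L.length (show 0 < 4 by norm_num)
          omega
        have e2 : L.length + 4 * (b - L.length / 4) = 4 * b + r % 4 := by
          have := Nat.div_add_mod L.length 4
          have := Nat.mod_lt L.length (show 0 < 4 by norm_num)
          omega
        have m1 : mm K.length C ≤ a - K.length / 4 := by omega
        have m2 : mm L.length C ≤ b - L.length / 4 := by omega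
        have key := (vote2_at (A := fun p => decide (∃ b ∈ f ((l, i), ((r, M), p)),
            (b = true ↔ Q p.1 p.2)))
          (Pr := Pr) (Q := fun _ _ => True) (K := K) (L := L) hPr1 hPr2
          (fun _ _ _ _ _ => Iff.rfl) (fun _ _ _ _ _ => Iff.rfl) hK hL hP (C := C)
          (m := a - K.length / 4) (m' := b - L.length / 4) m1 m2 (by
            rw [e1, e2]
            refine le_trans (Set.encard_le_encard ?_) hi2
            rintro T ⟨K', L', k1, k1', k2, k2', k3, k4, k4', k5⟩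
            refine ⟨K', L', k1, k1', k2, k2', k3, k4, k4', fun k6 => k5 ?_⟩
            exact iff_of_true (decide_eq_true k6) trivial)).2 trivial
        obtain ⟨s0, hs0, hs0'⟩ := wzg l i _ _ hab
        obtain ⟨W, hW⟩ : ∃ W, W = P K.length (a - K.length / 4) * P L.length (b - L.length / 4) :=
          ⟨_, rfl⟩
        rw [← hW] at key
        have h1 : ∀ j, decide (∃ b' ∈ f ((l, i), ((r, M), pk K L (a - K.length / 4)
            (b - L.length / 4) j)), (b' = true ↔ Q (pk K L (a - K.length / 4)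
              (b - L.length / 4) j).1 (pk K L (a - K.length / 4)
              (b - L.length / 4) j).2)) = true → ∃ s, l ≤ s ∧ ∀ j', j' % 2 ^ l = i →
              fg ((s, j'), ((r, M), pk K L (a - K.length / 4) (b - L.length / 4) j))
                = some (decide (Q K L)) := by
          intro j hj
          obtain ⟨b', hb', hb2⟩ := of_decide_eq_true hj
          rw [pk_fst, pk_snd, pk_inv hQ1 hQ2 hK hL] at hb2
          have e3 : b' = decide (Q K L) := by
            rw [Bool.eq_iff_iff, decide_eq_true_eq]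
            exact hb2
          rw [e3] at hb'
          exact wfg l i _ _ hb'
        choose! sj hsj hsj2 using h1
        obtain ⟨s, hs⟩ : ∃ s, s = max s0 ((Finset.range W).sup sj) := ⟨_, rfl⟩
        have hs0s : s0 ≤ s := by rw [hs]; exact le_max_left _ _
        refine ⟨s, hs0.trans hs0s, fun j hj => ⟨decide (Q K L), ?_, by simp⟩⟩
        have u1 : ∀ t, l ≤ t → (j % 2 ^ t) % 2 ^ l = i := by
          intro t ht
          rw [Nat.mod_mod_of_dvd _ (pow_dvd_pow 2 ht), hj]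
        rw [hF]
        unfold FF
        rw [Option.bind_eq_some_iff]
        refine ⟨(a, b), mzg s0 s j _ _ hs0s (hs0' _ (u1 s0 hs0)), ?_⟩
        have hW' : d2 (K, L) (a, b) = W := by rw [hW]; rfl
        change Tz.maj (fun j_1 => fg ((s, j), ((r, M), d1 (K, L) (a, b) j_1)))
          (d2 (K, L) (a, b)) = some (decide (Q K L))
        rw [hW']
        refine maj_many key ?_
        intro t ht ht2
        have v1 := hsj t ht2
        have v2 := hsj2 t ht2 _ (u1 (sj t) v1)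
        refine mfg (sj t) s j _ _ ?_ v2
        rw [hs]
        exact (Finset.le_sup (f := sj) (Finset.mem_range.2 ht)).trans (le_max_right _ _))
    exact ⟨D, fun _ => ⟨hD, fun x hx hx2 => hD2 x ⟨hx, hx2⟩⟩⟩
  choose D hD using hcls
  obtain ⟨E, hE, hE2⟩ := combine (X := Cx × Cx) 16
    (ρ := fun p => 4 * (p.1.length % 4) + p.2.length % 4)
    (by have : Primrec (fun p : Cx × Cx => 4 * (p.1.length % 4) + p.2.length % 4) := by fun_prop
        exact this.to_comp) fun r hr => (hD r hr).1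
  refine ⟨E, hE, fun K L hK hL hP => ?_⟩
  have h16 : 4 * (K.length % 4) + L.length % 4 < 16 := by omega
  rw [hE2 (K, L) h16]
  exact (hD _ h16).2 (K, L) ⟨hK, hL, hP⟩ rfl

end Pool.Agent.H34.RO
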