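import Mathlib
import Pool.Agent.H34.RO.Stage
import Pool.Graph.R_pool_sql_team_seeded_2aa45f1a.Q287.BA.ArtP

/-!
# Randomised algorithms with a small probability of success and few failures: Artin groups
-/

set_option autoImplicit false

namespace Pool.Agent.H34.RO

open Filter Encodable Pool.Agent.Q324.SC Pool.Agent.Q324.SC.Art Pool.Agent.Q287.BA
open Pool.Agent.Q287.BA.Art Pool.Agent.Q287.BA.Tri
open Pool.Agent.Q324.SC.Mat (tri two_tri tri_mono tri_succ)

/-- the lower bound for the range of the labels at the rank `R` -/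
def hb (K : ℕ × List (ℕ × Bool) → ℕ) (R : ℕ) : ℕ := Tz.sm (vv K) R (R + 1)

lemma hb_comp {K : ℕ × List (ℕ × Bool) → ℕ} (hK : Computable K) : Computable (hb K) :=
  Tz.sm_comp (vv_comp hK)

lemma okH (r : ℕ) (K : ℕ × List (ℕ × Bool) → ℕ) (p : Inp) (R H : ℕ)
    (hR : p.1 + (r + 1) * (tri p.1 + 1) + 1 + encode p ≤ R) (hH : hb K R ≤ H) :
    okk r K p (Nat.pair R H) := by
  have t1 : ∀ R, R ≤ tri (R + 1) := by
    intro R
    have := two_tri (R + 1)
    rcases Nat.eq_zero_or_pos R with h | h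
    · omega
    · have h2 : (R + 1) * (R + 1) = R * R + 2 * R + 1 := by ring
      nlinarith
  have e1 : p.2.1.sum + 2 * mm p.2.1 (tri R - tri p.1) (K (R, p.2.2)) ≤ Tz.sm (vv K) R (R + 1) :=
    Tz.le_sm (vv K) R p (R + 1) (by omega)
  have e2 : p.2.1.sum + 2 * mm p.2.1 (tri R - tri p.1) (K (R, p.2.2)) ≤ H := by
    unfold hb at hH
    exact e1.trans hH
  unfold okk FF MM
  simp only [Nat.unpair_pair]
  refine ⟨by omega, ?_, by omega, by omega⟩
  have h1 := t1 (R - 1)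
  have h2 : R - 1 + 1 = R := by omega
  rw [h2] at h1
  omega

/-- the votes -/
def FA (fg : (ℕ × ℕ) × (ℕ × Inp) → Option Bool) (zg : (ℕ × ℕ) × ℕ → Option ℕ)
    (y : (ℕ × ℕ) × Inp × ℕ) : Option Bool :=
  (zg (y.1, y.2.2)).bind fun H =>
    Tz.maj (fun j => fg (y.1, (y.2.2, (y.2.2, nl y.2.1.2.1 y.2.1.1 y.2.2
      (MM y.2.1 (Nat.pair y.2.2 H)) j, y.2.1.2.2))))
      ((MM y.2.1 (Nat.pair y.2.2 H) + 1) ^ FF y.2.1 (Nat.pair y.2.2 H))

theorem FA_comp {fg : (ℕ × ℕ) × (ℕ × Inp) → Option Bool} {zg : (ℕ × ℕ) × ℕ → Option ℕ}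
    (cfg : Computable fg) (czg : Computable zg) : Computable (FA fg zg) := by
  have cpp : Computable (fun x : ((ℕ × ℕ) × Inp × ℕ) × ℕ => (x.1.2.1, Nat.pair x.1.2.2 x.2)) :=
    (Computable.fst.comp (Computable.snd.comp Computable.fst)).pair
      (Primrec₂.natPair.to_comp.comp (Computable.snd.comp (Computable.snd.comp Computable.fst))
        Computable.snd)
  have c5 : Computable (fun x : Inp × ℕ => (MM x.1 x.2 + 1) ^ FF x.1 x.2) :=
    Computable.comp (f := fun p : ℕ × ℕ => (p.1 + 1) ^ p.2)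
      (g := fun x : Inp × ℕ => (MM x.1 x.2, FF x.1 x.2)) pp.to_comp (pM.to_comp.pair pF.to_comp)
  have e1 : Computable (fun w : (((ℕ × ℕ) × Inp × ℕ) × ℕ) × ℕ => w.1.1.1) :=
    Computable.fst.comp (Computable.fst.comp Computable.fst)
  have e2 : Computable (fun w : (((ℕ × ℕ) × Inp × ℕ) × ℕ) × ℕ => w.1.1.2.1) :=
    Computable.fst.comp (Computable.snd.comp (Computable.fst.comp Computable.fst))
  have e3 : Computable (fun w : (((ℕ × ℕ) × Inp × ℕ) × ℕ) × ℕ => w.1.1.2.2) :=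
    Computable.snd.comp (Computable.snd.comp (Computable.fst.comp Computable.fst))
  have d1 : Computable (fun w : (((ℕ × ℕ) × Inp × ℕ) × ℕ) × ℕ => w.1.1.2.1.2.1) :=
    Computable.fst.comp (Computable.snd.comp e2)
  have d2 : Computable (fun w : (((ℕ × ℕ) × Inp × ℕ) × ℕ) × ℕ => w.1.1.2.1.1) :=
    Computable.fst.comp e2
  have d7 : Computable (fun w : (((ℕ × ℕ) × Inp × ℕ) × ℕ) × ℕ => w.1.1.2.1.2.2) :=
    Computable.snd.comp (Computable.snd.comp e2)
  have d4 : Computable (fun w : (((ℕ × ℕ) × Inp × ℕ) × ℕ) × ℕ =>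
      MM w.1.1.2.1 (Nat.pair w.1.1.2.2 w.1.2)) :=
    Computable.comp (f := fun x : Inp × ℕ => MM x.1 x.2)
      (g := fun w : (((ℕ × ℕ) × Inp × ℕ) × ℕ) × ℕ => (w.1.1.2.1, Nat.pair w.1.1.2.2 w.1.2))
      pM.to_comp (cpp.comp Computable.fst)
  have d6 := nl_comp d1 d2 e3 d4 Computable.snd
  refine Computable.option_bind (f := fun y : (ℕ × ℕ) × Inp × ℕ => zg (y.1, y.2.2))
    (g := fun (y : (ℕ × ℕ) × Inp × ℕ) (H : ℕ) =>
      Tz.maj (fun j => fg (y.1, (y.2.2, (y.2.2, nl y.2.1.2.1 y.2.1.1 y.2.2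
        (MM y.2.1 (Nat.pair y.2.2 H)) j, y.2.1.2.2))))
      ((MM y.2.1 (Nat.pair y.2.2 H) + 1) ^ FF y.2.1 (Nat.pair y.2.2 H))) ?_ ?_
  · exact czg.comp (Computable.fst.pair (Computable.snd.comp Computable.snd))
  · refine Tz.maj_comp (f := fun (x : ((ℕ × ℕ) × Inp × ℕ) × ℕ) j =>
      fg (x.1.1, (x.1.2.2, (x.1.2.2, nl x.1.2.1.2.1 x.1.2.1.1 x.1.2.2
        (MM x.1.2.1 (Nat.pair x.1.2.2 x.2)) j, x.1.2.1.2.2))))
      (m := fun x : ((ℕ × ℕ) × Inp × ℕ) × ℕ =>
        (MM x.1.2.1 (Nat.pair x.1.2.2 x.2) + 1) ^ FF x.1.2.1 (Nat.pair x.1.2.2 x.2)) ?_ ?_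
    · exact cfg.comp (e1.pair (e3.pair (e3.pair (d6.pair d7))))
    · exact Computable.comp (f := fun x : Inp × ℕ => (MM x.1 x.2 + 1) ^ FF x.1 x.2)
        (g := fun x : ((ℕ × ℕ) × Inp × ℕ) × ℕ => (x.1.2.1, Nat.pair x.1.2.2 x.2)) c5 cpp

attribute [local irreducible] tri FF MM mm cnt nl vv okk Tz.maj Valid hb

set_option maxHeartbeats 2000000 in
/-- A randomised algorithm for the word problem of Artin groups, which chooses the range of the
labels itself. -/
theorem genA (k r : ℕ) {K : ℕ × List (ℕ × Bool) → ℕ} (hK : Computable K)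
    {f : (ℕ × ℕ) × (ℕ × Inp) →. Bool} (hf : Partrec f)
    (mf : ∀ l l' i a b, l ≤ l' → b ∈ f ((l, i % 2 ^ l), a) → b ∈ f ((l', i), a))
    {z : (ℕ × ℕ) × ℕ →. ℕ} (hz : Partrec z)
    (mz : ∀ l l' i a b, l ≤ l' → b ∈ z ((l, i % 2 ^ l), a) → b ∈ z ((l', i), a))
    (h : ∀ N, ∀ V : List (List (ℕ × Bool)), ∃ l, ∃ S : Finset ℕ, S ⊆ Finset.range (2 ^ l) ∧
      2 ^ l ≤ k * S.card ∧ ∀ i ∈ S, ∃ H, hb K N ≤ H ∧ H ∈ z ((l, i), N) ∧ ∀ w ∈ V,
        {c | c ∈ Labels N H ∧ ¬ ∃ b ∈ f ((l, i), (N, (N, c, w))),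
          (b = true ↔ WP (N, c, w))}.encard ^ (r + 1)
        ≤ ((K (N, w) * (H + 1) ^ (r * tri N) : ℕ) : ℕ∞)) : ComputablePred WP := by
  classical
  obtain ⟨fg, cfg, mfg, vfg, wfg⟩ := mstages hf mf
  obtain ⟨zg, czg, mzg, vzg, wzg⟩ := mstages hz mz
  obtain ⟨F, hF⟩ : ∃ F : (ℕ × ℕ) × Inp × ℕ → Option Bool, F = FA fg zg := ⟨_, rfl⟩
  have cF : Computable F := by
    rw [hF]
    exact FA_comp cfg czg
  have ptri' : Primrec (fun x : Inp × ℕ => tri x.1.1) := pn1
  have cadm : Computable (fun x : Inp × ℕ => decide (x.1.1 + (r + 1) * (tri x.1.1 + 1) + 1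
      + encode x.1 ≤ x.2)) := by
    have h1 : Primrec (fun x : Inp × ℕ => x.1.1 + (r + 1) * (tri x.1.1 + 1) + 1 + encode x.1) :=
      padd (padd (padd (by fun_prop) (pmul (pconst _) (padd ptri' (pconst 1)))) (pconst 1))
        (by fun_prop)
    exact (pble h1 Primrec.snd).to_comp
  obtain ⟨D, hD, hD2⟩ := frac (X := Inp) (P := fun p => Valid p) (T := WP) (k := k)
    (adm := fun x : Inp × ℕ => decide (x.1.1 + (r + 1) * (tri x.1.1 + 1) + 1
      + encode x.1 ≤ x.2)) cF cadm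
    (by
      intro s s' i x N b hs hb
      rw [hF] at hb ⊢
      unfold FA at hb ⊢
      rw [Option.bind_eq_some_iff] at hb ⊢
      obtain ⟨H, h1, h2⟩ := hb
      refine ⟨H, mzg s s' i _ H hs h1, ?_⟩
      exact Tz.maj_mono (fun j _ b hj => mfg s s' i _ b hs hj) h2)
    (fun p _ => by
      filter_upwards [eventually_ge_atTop (p.1 + (r + 1) * (tri p.1 + 1) + 1 + encode p)] with N hN
      exact decide_eq_true hN)
    (by
      intro N Z hZ
      obtain ⟨l, S, hS, hS2, hS3⟩ := h N (Z.map fun p => p.2.2)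
      refine ⟨l, S, hS, hS2, ?_⟩
      intro i hi p hp
      obtain ⟨hv, hp2⟩ := hZ p hp
      obtain ⟨H, hH, hHz, hi2⟩ := hS3 i hi
      have hok : okk r K p (Nat.pair N H) := okH r K p N H (of_decide_eq_true hp2) hH
      have key := okk_fail (Gd := fun c => ∃ b ∈ f ((l, i), (N, (N, c, p.2.2))),
        (b = true ↔ WP (N, c, p.2.2))) r hok (by
          rw [Nat.unpair_pair]
          exact hi2 p.2.2 (List.mem_map_of_mem (f := fun p : Inp => p.2.2) hp))
      rw [Nat.unpair_pair] at key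
      obtain ⟨s0, hs0, hs0'⟩ := wzg l i _ _ hHz
      obtain ⟨W, hW⟩ : ∃ W, W = (MM p (Nat.pair N H) + 1) ^ FF p (Nat.pair N H) := ⟨_, rfl⟩
      rw [← hW] at key
      have g0 : p.1 ≤ N := by
        have := hok
        unfold okk at this
        rw [Nat.unpair_pair] at this
        exact this.1
      have h1 : ∀ j, decide (∃ b ∈ f ((l, i), (N, (N, nl p.2.1 p.1 N (MM p (Nat.pair N H)) j,
          p.2.2))), (b = true ↔ WP (N, nl p.2.1 p.1 N (MM p (Nat.pair N H)) j, p.2.2))) = true →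
          ∃ s, l ≤ s ∧ ∀ j', j' % 2 ^ l = i →
            fg ((s, j'), (N, (N, nl p.2.1 p.1 N (MM p (Nat.pair N H)) j, p.2.2)))
              = some (decide (WP p)) := by
        intro j hj
        obtain ⟨b, hb, hb2⟩ := of_decide_eq_true hj
        rw [nl_wp hv g0] at hb2
        have e3 : b = decide (WP p) := by
          rw [Bool.eq_iff_iff, decide_eq_true_eq]
          exact hb2
        rw [e3] at hb
        exact wfg l i _ _ hb
      choose! sj hsj hsj2 using h1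
      obtain ⟨s, hs⟩ : ∃ s, s = max s0 ((Finset.range W).sup sj) := ⟨_, rfl⟩
      have hs0s : s0 ≤ s := by rw [hs]; exact le_max_left _ _
      refine ⟨s, hs0.trans hs0s, fun j hj => ⟨decide (WP p), ?_, by simp⟩⟩
      have u1 : ∀ t, l ≤ t → (j % 2 ^ t) % 2 ^ l = i := by
        intro t ht
        rw [Nat.mod_mod_of_dvd _ (pow_dvd_pow 2 ht), hj]
      rw [hF]
      unfold FA
      rw [Option.bind_eq_some_iff]
      refine ⟨H, mzg s0 s j _ _ hs0s (hs0' _ (u1 s0 hs0)), ?_⟩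
      change Tz.maj (fun j_1 => fg ((s, j), (N, (N, nl p.2.1 p.1 N (MM p (Nat.pair N H)) j_1,
        p.2.2)))) ((MM p (Nat.pair N H) + 1) ^ FF p (Nat.pair N H)) = some (decide (WP p))
      rw [← hW]
      refine maj_many key ?_
      intro t ht ht2
      have v1 := hsj t ht2
      have v2 := hsj2 t ht2 _ (u1 (sj t) v1)
      refine mfg (sj t) s j _ _ ?_ v2
      rw [hs]
      exact (Finset.le_sup (f := sj) (Finset.mem_range.2 ht)).trans (le_max_right _ _))
  refine total (D := fun p => cond (@decide (Valid p) (Classical.propDecidable _)) (D p)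
    (Part.some false)) (Partrec.cond cV hD (Computable.const false).partrec) fun p => ?_
  by_cases hv : Valid p
  · obtain ⟨b, hb, hb2⟩ := hD2 p hv
    exact ⟨b, by simp [hv, hb], hb2⟩
  · refine ⟨false, by simp [hv], ?_⟩
    have : ¬ WP p := by
      intro hw
      unfold WP at hw
      exact hv hw.1
    simp [this]

end Pool.Agent.H34.RO
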