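import Mathlib
import Pool.Agent.H34.RO.Art

/-!
# Randomised algorithms with a small probability of success and few failures: Artin groups,
with the exponent `n (n - 1) / 2 - f (n)`
-/

set_option autoImplicit false

namespace Pool.Agent.H34.RO

open Filter Encodable Pool.Agent.Q324.SC Pool.Agent.Q324.SC.Art Pool.Agent.Q287.BA
open Pool.Agent.Q287.BA.Art Pool.Agent.Q287.BA.Tri
open Pool.Agent.Q324.SC.Mat (tri two_tri tri_mono tri_succ)

lemma okk_few {K : ℕ × List (ℕ × Bool) → ℕ} {Gd : List ℕ → Prop} [DecidablePred Gd]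
    {p : Inp} {N e : ℕ} (hok : okk 0 K p N) (he : tri p.1 + 1 ≤ e)
    (h : {l | l ∈ Labels N.unpair.1 N.unpair.2 ∧ ¬ Gd l}.encard * ((N.unpair.2 + 1) ^ e : ℕ)
      ≤ ((K (N.unpair.1, p.2.2) * (N.unpair.2 + 1) ^ (tri N.unpair.1) : ℕ) : ℕ∞)) :
    (MM p N + 1) ^ FF p N < 2 * cnt (fun k => decide (Gd
      (nl p.2.1 p.1 N.unpair.1 (MM p N) k))) ((MM p N + 1) ^ FF p N) := by
  obtain ⟨h1, h2, h3, h4⟩ := hok
  have e5 : tri p.1 + 1 ≤ tri N.unpair.1 := by
    refine le_trans ?_ h2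
    exact Nat.le_mul_of_pos_left _ (by positivity)
  refine vote_gd h1 rfl ?_ h3 rfl h4 ?_
  · unfold FF
    omega
  obtain ⟨E, hE⟩ : ∃ E, E = {l | l ∈ Labels N.unpair.1 N.unpair.2 ∧ ¬ Gd l}.encard := ⟨_, rfl⟩
  rw [← hE] at h ⊢
  have hEt : E ≠ ⊤ := by
    intro ht
    rw [ht, ENat.top_mul (by positivity)] at h
    exact absurd h (not_le.2 (ENat.natCast_lt_top _))
  lift E to ℕ using hEt
  norm_cast at h ⊢
  obtain ⟨X, hX⟩ : ∃ X, X = N.unpair.2 + 1 := ⟨_, rfl⟩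
  rw [← hX] at h ⊢
  have hX1 : 1 ≤ X := by omega
  have h5 : E * X ^ (tri p.1 + 1) ≤ K (N.unpair.1, p.2.2) * X ^ (FF p N - 1) * X ^ (tri p.1 + 1) := by
    refine (Nat.mul_le_mul_left _ (Nat.pow_le_pow_right hX1 he)).trans (h.trans (le_of_eq ?_))
    rw [mul_assoc, ← pow_add]
    congr 2
    unfold FF
    omega
  exact Nat.le_of_mul_le_mul_right h5 (by positivity)

attribute [local irreducible] tri FF MM mm cnt nl vv okk Tz.maj Valid hb FA

set_option maxHeartbeats 2000000 in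
/-- A randomised algorithm for the word problem of Artin groups, which chooses the range of the
labels itself; it is good for the ranks `ρ j`, with the exponent `ρ j (ρ j - 1) / 2 - e j`. -/
theorem genC (k : ℕ) {K : ℕ × List (ℕ × Bool) → ℕ}
    {ρ e : ℕ → ℕ} (cρ : Computable ρ) (ce : Computable e) (hρ : ∀ j, j ≤ ρ j)
    {f : (ℕ × ℕ) × (ℕ × Inp) →. Bool} (hf : Partrec f)
    (mf : ∀ l l' i a b, l ≤ l' → b ∈ f ((l, i % 2 ^ l), a) → b ∈ f ((l', i), a))
    {z : (ℕ × ℕ) × ℕ →. ℕ} (hz : Partrec z)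
    (mz : ∀ l l' i a b, l ≤ l' → b ∈ z ((l, i % 2 ^ l), a) → b ∈ z ((l', i), a))
    (h : ∀ j, ∀ V : List (List (ℕ × Bool)), ∃ l, ∃ S : Finset ℕ, S ⊆ Finset.range (2 ^ l) ∧
      2 ^ l ≤ k * S.card ∧ ∀ i ∈ S, ∃ H, hb K (ρ j) ≤ H ∧ H ∈ z ((l, i), ρ j) ∧ ∀ w ∈ V,
        {c | c ∈ Labels (ρ j) H ∧ ¬ ∃ b ∈ f ((l, i), (ρ j, (ρ j, c, w))),
          (b = true ↔ WP (ρ j, c, w))}.encard * ((H + 1) ^ e j : ℕ)
        ≤ ((K (ρ j, w) * (H + 1) ^ (tri (ρ j)) : ℕ) : ℕ∞)) :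
    ∃ D : Inp →. Bool, Partrec D ∧ ∀ p, (Valid p ∧ ∀ᶠ j in atTop, tri p.1 + 1 ≤ e j) →
      ∃ b, D p = Part.some b ∧ (b = true ↔ WP p) := by
  classical
  obtain ⟨fg, cfg, mfg, vfg, wfg⟩ := mstages hf mf
  obtain ⟨zg, czg, mzg, vzg, wzg⟩ := mstages hz mz
  obtain ⟨F, hF⟩ : ∃ F : (ℕ × ℕ) × Inp × ℕ → Option Bool,
    F = fun y => FA fg zg (y.1, y.2.1, ρ y.2.2) := ⟨_, rfl⟩
  have cF : Computable F := by
    rw [hF]
    exact (FA_comp cfg czg).comp (Computable.fst.pair ((Computable.fst.comp Computable.snd).pair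
      (cρ.comp (Computable.snd.comp Computable.snd))))
  have ptri' : Primrec (fun x : Inp × ℕ => tri x.1.1) := pn1
  have cadm : Computable (fun x : Inp × ℕ => (decide (x.1.1 + (0 + 1) * (tri x.1.1 + 1) + 1
      + encode x.1 ≤ x.2) && decide (tri x.1.1 + 1 ≤ e x.2))) := by
    have h1 : Primrec (fun x : Inp × ℕ => x.1.1 + (0 + 1) * (tri x.1.1 + 1) + 1 + encode x.1) :=
      padd (padd (padd (by fun_prop) (pmul (pconst _) (padd ptri' (pconst 1)))) (pconst 1))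
        (by fun_prop)
    have h2 : Primrec (fun x : ℕ × ℕ => decide (x.1 + 1 ≤ x.2)) := by fun_prop
    exact Primrec.and.to_comp.comp (pble h1 Primrec.snd).to_comp
      (h2.to_comp.comp (ptri'.to_comp.pair (ce.comp Computable.snd)))
  exact frac (X := Inp) (P := fun p => Valid p ∧ ∀ᶠ j in atTop, tri p.1 + 1 ≤ e j)
    (T := WP) (k := k)
    (adm := fun x : Inp × ℕ => (decide (x.1.1 + (0 + 1) * (tri x.1.1 + 1) + 1
      + encode x.1 ≤ x.2) && decide (tri x.1.1 + 1 ≤ e x.2))) cF cadm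
    (by
      intro s s' i x N b hs hb
      rw [hF] at hb ⊢
      beta_reduce at hb ⊢
      unfold FA at hb ⊢
      rw [Option.bind_eq_some_iff] at hb ⊢
      obtain ⟨H, h1, h2⟩ := hb
      refine ⟨H, mzg s s' i _ H hs h1, ?_⟩
      exact Tz.maj_mono (fun j _ b hj => mfg s s' i _ b hs hj) h2)
    (fun p hp => by
      filter_upwards [eventually_ge_atTop (p.1 + (0 + 1) * (tri p.1 + 1) + 1 + encode p), hp.2]
        with N hN hN2
      rw [Bool.and_eq_true, decide_eq_true_eq, decide_eq_true_eq]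
      exact ⟨hN, hN2⟩)
    (by
      intro j0 Z hZ
      obtain ⟨l, S, hS, hS2, hS3⟩ := h j0 (Z.map fun p => p.2.2)
      refine ⟨l, S, hS, hS2, ?_⟩
      intro i hi p hp
      obtain ⟨⟨hv, -⟩, hp2⟩ := hZ p hp
      rw [Bool.and_eq_true, decide_eq_true_eq, decide_eq_true_eq] at hp2
      obtain ⟨hp2, hp4⟩ := hp2
      obtain ⟨H, hH, hHz, hi2⟩ := hS3 i hi
      have hp3 : p.1 + (0 + 1) * (tri p.1 + 1) + 1 + encode p ≤ j0 := hp2
      obtain ⟨N, hN⟩ : ∃ N, N = ρ j0 := ⟨_, rfl⟩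
      have hjN : j0 ≤ N := hN ▸ hρ j0
      rw [← hN] at hH hHz hi2
      have hok : okk 0 K p (Nat.pair N H) := okH 0 K p N H (hp3.trans hjN) hH
      have key := okk_few (Gd := fun c => ∃ b ∈ f ((l, i), (N, (N, c, p.2.2))),
        (b = true ↔ WP (N, c, p.2.2))) (e := e j0) hok hp4 (by
          rw [Nat.unpair_pair]
          exact hi2 p.2.2 (List.mem_map_of_mem (f := fun p : Inp => p.2.2) hp))
      rw [Nat.unpair_pair] at key
      obtain ⟨s0, hs0, hs0'⟩ := wzg l i _ _ hHz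
      obtain ⟨W, hW⟩ : ∃ W, W = (MM p (Nat.pair N H) + 1) ^ FF p (Nat.pair N H) := ⟨_, rfl⟩
      rw [← hW] at key
      have g0 : p.1 ≤ N := by
        have := hok
        unfold okk at this
        rw [Nat.unpair_pair] at this
        exact this.1
      have h1 : ∀ j, decide (∃ b ∈ f ((l, i), (N, (N, nl p.2.1 p.1 N (MM p (Nat.pair N H)) j,
          p.2.2))), (b = true ↔ WP (N, nl p.2.1 p.1 N (MM p (Nat.pair N H)) j, p.2.2))) = true →
          ∃ s, l ≤ s ∧ ∀ j', j' % 2 ^ l = i →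
            fg ((s, j'), (N, (N, nl p.2.1 p.1 N (MM p (Nat.pair N H)) j, p.2.2)))
              = some (decide (WP p)) := by
        intro j hj
        obtain ⟨b, hb, hb2⟩ := of_decide_eq_true hj
        rw [nl_wp hv g0] at hb2
        have e3 : b = decide (WP p) := by
          rw [Bool.eq_iff_iff, decide_eq_true_eq]
          exact hb2
        rw [e3] at hb
        exact wfg l i _ _ hb
      choose! sj hsj hsj2 using h1
      obtain ⟨s, hs⟩ : ∃ s, s = max s0 ((Finset.range W).sup sj) := ⟨_, rfl⟩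
      have hs0s : s0 ≤ s := by rw [hs]; exact le_max_left _ _
      refine ⟨s, hs0.trans hs0s, fun j hj => ⟨decide (WP p), ?_, by simp⟩⟩
      have u1 : ∀ t, l ≤ t → (j % 2 ^ t) % 2 ^ l = i := by
        intro t ht
        rw [Nat.mod_mod_of_dvd _ (pow_dvd_pow 2 ht), hj]
      rw [hF]
      beta_reduce
      rw [← hN]
      unfold FA
      rw [Option.bind_eq_some_iff]
      refine ⟨H, mzg s0 s j _ _ hs0s (hs0' _ (u1 s0 hs0)), ?_⟩
      change Tz.maj (fun j_1 => fg ((s, j), (N, (N, nl p.2.1 p.1 N (MM p (Nat.pair N H)) j_1,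
        p.2.2)))) ((MM p (Nat.pair N H) + 1) ^ FF p (Nat.pair N H)) = some (decide (WP p))
      rw [← hW]
      refine maj_many key ?_
      intro t ht ht2
      have v1 := hsj t ht2
      have v2 := hsj2 t ht2 _ (u1 (sj t) v1)
      refine mfg (sj t) s j _ _ ?_ v2
      rw [hs]
      exact (Finset.le_sup (f := sj) (Finset.mem_range.2 ht)).trans (le_max_right _ _))

/-- The limit of the exponents is infinite. -/
theorem genB (k : ℕ) {K : ℕ × List (ℕ × Bool) → ℕ}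
    {ρ : ℕ → ℕ} (cρ : Computable ρ) (hρ : ∀ j, j ≤ ρ j)
    {f : (ℕ × ℕ) × (ℕ × Inp) →. Bool} (hf : Partrec f)
    (mf : ∀ l l' i a b, l ≤ l' → b ∈ f ((l, i % 2 ^ l), a) → b ∈ f ((l', i), a))
    {z : (ℕ × ℕ) × ℕ →. ℕ} (hz : Partrec z)
    (mz : ∀ l l' i a b, l ≤ l' → b ∈ z ((l, i % 2 ^ l), a) → b ∈ z ((l', i), a))
    (h : ∀ j, ∀ V : List (List (ℕ × Bool)), ∃ l, ∃ S : Finset ℕ, S ⊆ Finset.range (2 ^ l) ∧
      2 ^ l ≤ k * S.card ∧ ∀ i ∈ S, ∃ H, hb K (ρ j) ≤ H ∧ H ∈ z ((l, i), ρ j) ∧ ∀ w ∈ V,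
        {c | c ∈ Labels (ρ j) H ∧ ¬ ∃ b ∈ f ((l, i), (ρ j, (ρ j, c, w))),
          (b = true ↔ WP (ρ j, c, w))}.encard * ((H + 1) ^ j : ℕ)
        ≤ ((K (ρ j, w) * (H + 1) ^ (tri (ρ j)) : ℕ) : ℕ∞)) : ComputablePred WP := by
  classical
  obtain ⟨D, hD, hD2⟩ := genC k cρ (e := fun j => j) Computable.id hρ hf mf hz mz h
  refine total (D := fun p => cond (@decide (Valid p) (Classical.propDecidable _)) (D p)
    (Part.some false)) (Partrec.cond cV hD (Computable.const false).partrec) fun p => ?_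
  by_cases hv : Valid p
  · obtain ⟨b, hb, hb2⟩ := hD2 p ⟨hv, eventually_ge_atTop _⟩
    exact ⟨b, by simp [hv, hb], hb2⟩
  · refine ⟨false, by simp [hv], ?_⟩
    have : ¬ WP p := by
      intro hw
      unfold WP at hw
      exact hv hw.1
    simp [this]

/-- a computable sequence of arguments at which the computable unbounded function `f` is large -/
lemma exists_rho {f : ℕ → ℕ} (hf : Computable f) (h : ∀ a, ∃ n, a ≤ f n) :
    ∃ ρ : ℕ → ℕ, Computable ρ ∧ ∀ j, j ≤ ρ j ∧ j ≤ f (ρ j) := by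
  have h1 : ∀ j, ∃ n, j ≤ n ∧ j ≤ f n := by
    intro j
    obtain ⟨n, hn⟩ := h (((Finset.range j).sup f) + j + 1)
    refine ⟨n, ?_, by omega⟩
    by_contra hcon
    push Not at hcon
    have := Finset.le_sup (f := f) (Finset.mem_range.2 hcon)
    omega
  obtain ⟨q, hq⟩ : ∃ q : ℕ → ℕ → Bool, q = fun j n => (decide (j ≤ n) && decide (j ≤ f n)) :=
    ⟨_, rfl⟩
  obtain ⟨p, hp⟩ : ∃ p : ℕ → ℕ →. Bool, p = fun j n => Part.some (q j n) := ⟨_, rfl⟩
  have h2 : Partrec (fun j : ℕ => Nat.rfind (p j)) := by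
    refine Partrec.rfind (p := p) ?_
    rw [hp, hq]
    have h3 : Primrec (fun y : ℕ × ℕ => decide (y.1 ≤ y.2)) := by fun_prop
    exact (Primrec.and.to_comp.comp (h3.to_comp.comp (Computable.fst.pair Computable.snd))
      (h3.to_comp.comp (Computable.fst.pair (hf.comp Computable.snd)))).partrec
  have h4 : ∀ j : ℕ, ∃ n, n ∈ Nat.rfind (p j) := by
    intro j
    have : (Nat.rfind (p j)).Dom := by
      rw [Nat.rfind_dom]
      obtain ⟨n, hn, hn2⟩ := h1 j
      refine ⟨n, ?_, ?_⟩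
      · rw [hp]
        have : q j n = true := by
          rw [hq]
          simp [hn, hn2]
        show true ∈ Part.some (q j n)
        rw [this]
        exact Part.mem_some _
      · intro m _
        rw [hp]
        exact trivial
    exact ⟨_, Part.get_mem this⟩
  choose ρ hρ using h4
  refine ⟨ρ, h2.of_eq_tot hρ, fun j => ?_⟩
  have h5 := Nat.rfind_spec (hρ j)
  have h6 : true = q j (ρ j) := by
    rw [hp] at h5
    exact Part.mem_some_iff.1 h5
  rw [hq] at h6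
  have h7 : (decide (j ≤ ρ j) && decide (j ≤ f (ρ j))) = true := h6.symm
  rw [Bool.and_eq_true, decide_eq_true_eq, decide_eq_true_eq] at h7
  exact h7

end Pool.Agent.H34.RO
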